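import Pool.Agent.Lib.MP_9fe581_an.HG.Gram
import Pool.Agent.Lib.MP_9fe581_an.HD.AbsPrimes
import Pool.Agent.Lib.MP_9fe581_an.HD.Cheb
import Pool.Agent.Lib.MP_9fe581_an.HD.VonNeumann
import Pool.Agent.Lib.MP_9fe581_an.HD.Main

/-!
# HG: the correlations of a Gram family along the invariant joinings
-/

set_option autoImplicit false
set_option linter.unusedSectionVars false

open Finset MeasureTheory Filter Topology
open scoped ComplexConjugate

namespace Pool.Agent.Lib.MP_9fe581_an.HG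

open Pool.Agent.Lib.MP_9fe581_an.HD Pool.Agent.Lib.MP_9fe581_an.HX

variable {Y : Type} [TopologicalSpace Y] {κ : Type} [Fintype κ] {S : Y → Y} {F : ℕ → C(Y, ℂ)}
variable [CompactSpace Y] [T2Space Y] [SecondCountableTopology Y] [MeasurableSpace Y] [BorelSpace Y]

/-- the correlation along a joining -/
noncomputable def bG (l : Measure (Y × Y)) (F : ℕ → C(Y, ℂ)) (n : ℕ) : ℂ := ∫ z, F n z.1 * conj (F n z.2) ∂l

theorem bG_re (l : Measure (Y × Y)) (F : ℕ → C(Y, ℂ)) (n : ℕ) : (bG l F n).re = jq l (F n) := rfl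

/-- the integrals -/
noncomputable def aG (ν : Measure Y) (F : ℕ → C(Y, ℂ)) (n : ℕ) : ℂ := ∫ y, F n y ∂ν

theorem gi_cont {Z : Type} [TopologicalSpace Z] [CompactSpace Z] [MeasurableSpace Z] [BorelSpace Z] (l : Measure Z)
    [IsFiniteMeasure l] {E : Type} [NormedAddCommGroup E] [SecondCountableTopologyEither Z E] {f : Z → E}
    (hf : Continuous f) : Integrable f l :=
  hf.integrable_of_hasCompactSupport (HasCompactSupport.of_compactSpace _)

theorem bG_le (hF : Gr κ S F) (l : Measure (Y × Y)) [IsProbabilityMeasure l] (n : ℕ) : ‖bG l F n‖ ≤ 1 := by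
  unfold bG
  refine (norm_integral_le_of_norm_le_const (C := (1 : ℝ)) (ae_of_all _ fun z => ?_)).trans (by simp)
  rw [norm_mul, RCLike.norm_conj]
  exact mul_le_one₀ (F_le hF n _) (norm_nonneg _) (F_le hF n _)

theorem F0_im (hF : Gr κ S F) (y : Y) : (F 0 y).im = 0 := by
  obtain ⟨d, hd⟩ := hF.ex y
  have h := hd.normSq 0
  rw [Function.iterate_zero, id] at h
  rw [← h, Complex.ofReal_im]

theorem bG_zero_im (hF : Gr κ S F) (l : Measure (Y × Y)) [IsProbabilityMeasure l] : (bG l F 0).im = 0 := by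
  have h1 : bG l F 0 = ((∫ z, (F 0 z.1).re * (F 0 z.2).re ∂l : ℝ) : ℂ) := by
    unfold bG
    rw [← integral_complex_ofReal]
    refine integral_congr_ae (ae_of_all _ fun z => ?_)
    have h2 : F 0 z.1 = (((F 0 z.1).re : ℝ) : ℂ) := Complex.ext rfl (F0_im hF z.1)
    have h3 : F 0 z.2 = (((F 0 z.2).re : ℝ) : ℂ) := Complex.ext rfl (F0_im hF z.2)
    simp only
    rw [h2, h3, Complex.conj_ofReal]
    simp
  rw [h1, Complex.ofReal_im]

/-- invariance of the joining -/
theorem bG_shift (l : Measure (Y × Y)) (hl : MeasurePreserving (Prod.map S S) l l) (m : ℕ)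
    {E : Type} [NormedAddCommGroup E] [NormedSpace ℝ E] (f : Y × Y → E) (hf : Continuous f)
    [SecondCountableTopologyEither (Y × Y) E] :
    ∫ z, f (S^[m] z.1, S^[m] z.2) ∂l = ∫ z, f z ∂l := by
  have h1 : MeasurePreserving (Prod.map S S)^[m] l l := hl.iterate m
  rw [Prod.map_iterate] at h1
  have h2 := integral_map (μ := l) h1.measurable.aemeasurable (f := f) hf.aestronglyMeasurable
  rw [h1.map_eq] at h2
  exact h2.symm

/-- one positivity computation for all uses -/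
theorem gr_gen (z : ℕ → ℂ) (r : ℕ → ℕ) (M : ℕ) (d e : ℕ → κ → ℂ) :
    ∑ m ∈ range M, ∑ m' ∈ range M, z m * conj (z m') *
      ((∑ k, d (r m) k * conj (d (r m') k)) * conj (∑ k, e (r m) k * conj (e (r m') k))) =
      ((∑ a, ∑ c, ‖∑ m ∈ range M, z m * (d (r m) a * conj (e (r m) c))‖ ^ 2 : ℝ) : ℂ) := by
  push_cast
  have h1 : ∀ a c, ((‖∑ m ∈ range M, z m * (d (r m) a * conj (e (r m) c))‖ : ℂ)) ^ 2 =
      ∑ m ∈ range M, ∑ m' ∈ range M, z m * conj (z m') *
        ((d (r m) a * conj (d (r m') a)) * conj (e (r m) c * conj (e (r m') c))) := by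
    intro a c
    rw [← Complex.mul_conj', map_sum, Finset.sum_mul_sum]
    refine Finset.sum_congr rfl fun m _ => Finset.sum_congr rfl fun m' _ => ?_
    simp only [map_mul, Complex.conj_conj]
    ring
  simp_rw [h1]
  have h5 : ∀ g : ℕ → ℕ → κ → κ → ℂ, (∑ l ∈ range M, ∑ l' ∈ range M, ∑ a, ∑ c, g l l' a c) =
      ∑ a, ∑ c, ∑ l ∈ range M, ∑ l' ∈ range M, g l l' a c := by
    intro g
    have h6 : ∀ h : κ → κ → ℂ, (∑ a, ∑ c, h a c) = ∑ x : κ × κ, h x.1 x.2 := by
      intro h; simp [Fintype.sum_prod_type]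
    simp_rw [h6]
    symm
    rw [Finset.sum_comm]
    exact Finset.sum_congr rfl fun l _ => Finset.sum_comm
  rw [← h5]
  refine Finset.sum_congr rfl fun m _ => Finset.sum_congr rfl fun m' _ => ?_
  rw [map_sum, Finset.sum_mul_sum, Finset.mul_sum]
  exact Finset.sum_congr rfl fun a _ => Finset.mul_sum _ _ _

theorem gr_pos (hF : Gr κ S F) (z : ℕ → ℂ) (M : ℕ) (u v : Y) :
    0 ≤ (∑ m ∈ range M, ∑ m' ∈ range M, z m * conj (z m') * (sF S F 1 m m' u * conj (sF S F 1 m m' v))).re := by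
  obtain ⟨d, hd⟩ := hF.ex u
  obtain ⟨e, he⟩ := hF.ex v
  simp_rw [sF_eq hd, sF_eq he]
  rw [gr_gen z (fun m => 1 * m) M d e, Complex.ofReal_re]
  exact Finset.sum_nonneg fun a _ => Finset.sum_nonneg fun c _ => by positivity

theorem gr_pair (_hS : Continuous S) (l : Measure (Y × Y)) [IsProbabilityMeasure l]
    (hl : MeasurePreserving (Prod.map S S) l l) (m m' : ℕ) :
    ∫ z, sF S F 1 m m' z.1 * conj (sF S F 1 m m' z.2) ∂l =
      if m' ≤ m then bG l F (m - m') else conj (bG l F (m' - m)) := by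
  unfold sF
  split_ifs with h
  · have h1 := bG_shift l hl (1 * m') (fun z : Y × Y => F (1 * (m - m')) z.1 * conj (F (1 * (m - m')) z.2))
      (((F _).continuous.comp continuous_fst).mul (Complex.continuous_conj.comp ((F _).continuous.comp continuous_snd)))
    simp only at h1
    rw [h1, one_mul]
    rfl
  · have h1 := bG_shift l hl (1 * m) (fun z : Y × Y => F (1 * (m' - m)) z.1 * conj (F (1 * (m' - m)) z.2))
      (((F _).continuous.comp continuous_fst).mul (Complex.continuous_conj.comp ((F _).continuous.comp continuous_snd)))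
    simp only at h1
    have h2 : ∀ z : Y × Y, conj (F (1 * (m' - m)) (S^[1 * m] z.1)) * conj (conj (F (1 * (m' - m)) (S^[1 * m] z.2))) =
        conj (F (1 * (m' - m)) (S^[1 * m] z.1) * conj (F (1 * (m' - m)) (S^[1 * m] z.2))) := by
      intro z; rw [map_mul]
    simp_rw [h2]
    rw [integral_conj, h1, one_mul]
    rfl

theorem gr_pair_cont (hS : Continuous S) (m m' : ℕ) :
    Continuous fun z : Y × Y => sF S F 1 m m' z.1 * conj (sF S F 1 m m' z.2) :=
  ((sF_cont hS 1 m m').comp continuous_fst).mul (Complex.continuous_conj.comp ((sF_cont hS 1 m m').comp continuous_snd))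

theorem bG_posDef (hS : Continuous S) (hF : Gr κ S F) (l : Measure (Y × Y)) [IsProbabilityMeasure l]
    (hl : MeasurePreserving (Prod.map S S) l l) : PosDef (bG l F) := by
  intro M z
  have h1 : (∑ m ∈ range M, ∑ m' ∈ range M, z m * conj (z m') *
      (if m' ≤ m then bG l F (m - m') else conj (bG l F (m' - m)))) =
      ∫ w, ∑ m ∈ range M, ∑ m' ∈ range M, z m * conj (z m') * (sF S F 1 m m' w.1 * conj (sF S F 1 m m' w.2)) ∂l := by
    rw [integral_finsetSum _ fun m _ => integrable_finsetSum _ fun m' _ => (gi_cont l (gr_pair_cont hS m m')).const_mul _]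
    refine Finset.sum_congr rfl fun m _ => ?_
    rw [integral_finsetSum _ fun m' _ => (gi_cont l (gr_pair_cont hS m m')).const_mul _]
    refine Finset.sum_congr rfl fun m' _ => ?_
    rw [integral_const_mul, gr_pair hS l hl]
  rw [h1]
  have hc : Continuous fun w : Y × Y =>
      ∑ m ∈ range M, ∑ m' ∈ range M, z m * conj (z m') * (sF S F 1 m m' w.1 * conj (sF S F 1 m m' w.2)) :=
    continuous_finsetSum _ fun m _ => continuous_finsetSum _ fun m' _ => continuous_const.mul (gr_pair_cont hS m m')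
  have h2 := Complex.reCLM.integral_comp_comm (gi_cont l hc)
  simp only [Complex.reCLM_apply] at h2
  rw [← h2]
  exact integral_nonneg fun w => gr_pos hF z M w.1 w.2

theorem bG_avg (hS : Continuous S) (l : Measure (Y × Y)) [IsProbabilityMeasure l]
    (hl : MeasurePreserving (Prod.map S S) l l) (N : ℕ) :
    avg2 (fun n => (bG l F n).re) N = ∫ z, Ph S F 1 1 N z.1 z.2 ∂l := by
  unfold avg2 Ph
  rw [integral_const_mul]
  congr 1
  have hi : ∀ m m' : ℕ, Continuous fun z : Y × Y => (sF S F 1 m m' z.1 * conj (sF S F 1 m m' z.2)).re := fun m m' =>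
    Complex.continuous_re.comp (gr_pair_cont hS m m')
  rw [integral_finsetSum _ fun m _ => integrable_finsetSum _ fun m' _ => gi_cont l (hi m m')]
  refine Finset.sum_congr rfl fun m _ => ?_
  rw [integral_finsetSum _ fun m' _ => gi_cont l (hi m m')]
  refine Finset.sum_congr rfl fun m' _ => ?_
  have h2 := Complex.reCLM.integral_comp_comm (gi_cont l (gr_pair_cont (F := F) hS m m'))
  simp only [Complex.reCLM_apply] at h2
  rw [h2, gr_pair hS l hl]
  split_ifs with h
  · rw [show m' - m = 0 by omega, add_zero]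
  · rw [Complex.conj_re, show m - m' = 0 by omega, zero_add]

theorem bG_avg_nonneg (hS : Continuous S) (hF : Gr κ S F) (l : Measure (Y × Y)) [IsProbabilityMeasure l]
    (hl : MeasurePreserving (Prod.map S S) l l) (N : ℕ) : 0 ≤ avg2 (fun n => (bG l F n).re) N := by
  rw [bG_avg hS l hl]
  exact integral_nonneg fun z => Ph_nonneg hF _ _ _ _ _

theorem gr_blocks (f : ℕ → ℂ) (M R : ℕ) :
    ∑ n ∈ range (M * R), f n = ∑ i ∈ range R, ∑ l ∈ range M, f (l + M * i) := by
  induction R with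
  | zero => simp
  | succ R ih =>
    rw [Nat.mul_succ, Finset.sum_range_add, ih, Finset.sum_range_succ]
    congr 1
    exact Finset.sum_congr rfl fun l _ => by rw [add_comm]

theorem gr_conv (R : ℕ) (hR : 0 < R) (V : ℕ → ℂ) :
    ‖(1 / (R : ℂ)) * ∑ i ∈ range R, V i‖ ^ 2 ≤ (1 / (R : ℝ)) * ∑ i ∈ range R, ‖V i‖ ^ 2 := by
  have hR' : (0 : ℝ) < R := by exact_mod_cast hR
  have h1 : ‖∑ i ∈ range R, V i‖ ^ 2 ≤ R * ∑ i ∈ range R, ‖V i‖ ^ 2 := by
    calc ‖∑ i ∈ range R, V i‖ ^ 2 ≤ (∑ i ∈ range R, ‖V i‖) ^ 2 :=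
          pow_le_pow_left₀ (norm_nonneg _) (norm_sum_le _ _) 2
      _ ≤ (range R).card * ∑ i ∈ range R, ‖V i‖ ^ 2 := sq_sum_le_card_mul_sum_sq
      _ = _ := by rw [Finset.card_range]
  rw [norm_mul, mul_pow, norm_div, norm_one, Complex.norm_natCast]
  calc (1 / (R : ℝ)) ^ 2 * ‖∑ i ∈ range R, V i‖ ^ 2 ≤ (1 / (R : ℝ)) ^ 2 * (R * ∑ i ∈ range R, ‖V i‖ ^ 2) := by gcongr
    _ = (1 / (R : ℝ)) * ∑ i ∈ range R, ‖V i‖ ^ 2 := by field_simp

theorem Ph_pt (hF : Gr κ S F) (M R : ℕ) (hM : 0 < M) (hR : 0 < R) (u v : Y) :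
    Ph S F 1 1 (M * R) u v ≤ (1 / (R : ℝ)) * ∑ i ∈ range R, Ph S F 1 1 M (S^[M * i] u) (S^[M * i] v) := by
  obtain ⟨d, hd⟩ := hF.ex u
  obtain ⟨e, he⟩ := hF.ex v
  have hM' : (M : ℂ) ≠ 0 := Nat.cast_ne_zero.2 hM.ne'
  have hR' : (R : ℂ) ≠ 0 := Nat.cast_ne_zero.2 hR.ne'
  set V : ℕ → κ → κ → ℂ := fun i a c => (1 / (M : ℂ)) * ∑ l ∈ range M, d (l + M * i) a * conj (e (l + M * i) c) with hV
  have h1 : ∀ a c, (1 / ((M * R : ℕ) : ℂ)) * ∑ l ∈ range (M * R), d (1 * l) a * conj (e (1 * l) c) =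
      (1 / (R : ℂ)) * ∑ i ∈ range R, V i a c := by
    intro a c
    simp only [one_mul, hV]
    rw [gr_blocks, ← Finset.mul_sum, ← mul_assoc]
    congr 1
    push_cast
    field_simp
  have h2 : ∀ i, Ph S F 1 1 M (S^[M * i] u) (S^[M * i] v) = ∑ a, ∑ c, ‖V i a c‖ ^ 2 := by
    intro i
    rw [Ph_eq (hd.shift (M * i)) (he.shift (M * i))]
    simp only [one_mul, hV]
  rw [Ph_eq hd he]
  simp_rw [h1, h2]
  calc ∑ a, ∑ c, ‖(1 / (R : ℂ)) * ∑ i ∈ range R, V i a c‖ ^ 2
      ≤ ∑ a, ∑ c, (1 / (R : ℝ)) * ∑ i ∈ range R, ‖V i a c‖ ^ 2 :=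
        Finset.sum_le_sum fun a _ => Finset.sum_le_sum fun c _ => gr_conv R hR _
    _ = _ := by
        simp_rw [← Finset.mul_sum]
        congr 1
        have h5 : ∀ h : κ → κ → ℝ, (∑ a, ∑ c, h a c) = ∑ x : κ × κ, h x.1 x.2 := by
          intro h; simp [Fintype.sum_prod_type]
        simp_rw [h5]
        exact Finset.sum_comm

theorem Ph_cont2 (hS : Continuous S) (p q L : ℕ) {Z : Type} [TopologicalSpace Z] {f g : Z → Y} (hf : Continuous f)
    (hg : Continuous g) : Continuous fun z => Ph S F p q L (f z) (g z) := by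
  have h := (Ph_cont (F := F) hS p q L).comp (hf.prodMk hg)
  exact h

theorem bG_avg_mono (hS : Continuous S) (hF : Gr κ S F) (l : Measure (Y × Y)) [IsProbabilityMeasure l]
    (hl : MeasurePreserving (Prod.map S S) l l) (M R : ℕ) (hM : 0 < M) (hR : 0 < R) :
    avg2 (fun n => (bG l F n).re) (M * R) ≤ avg2 (fun n => (bG l F n).re) M := by
  rw [bG_avg hS l hl, bG_avg hS l hl]
  have hcs : ∀ i, Continuous fun z : Y × Y => Ph S F 1 1 M (S^[M * i] z.1) (S^[M * i] z.2) := by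
    intro i
    have hf : Continuous fun z : Y × Y => S^[M * i] z.1 := (hS.iterate (M * i)).comp continuous_fst
    have hg : Continuous fun z : Y × Y => S^[M * i] z.2 := (hS.iterate (M * i)).comp continuous_snd
    exact Ph_cont2 hS 1 1 M hf hg
  have hcA : Continuous fun z : Y × Y => Ph S F 1 1 (M * R) z.1 z.2 := Ph_cont hS 1 1 (M * R)
  have hcB : Continuous fun z : Y × Y => (1 / (R : ℝ)) * ∑ i ∈ range R, Ph S F 1 1 M (S^[M * i] z.1) (S^[M * i] z.2) :=
    continuous_const.mul (continuous_finsetSum _ fun i _ => hcs i)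
  have hpt : ∀ z : Y × Y, Ph S F 1 1 (M * R) z.1 z.2 ≤
      (1 / (R : ℝ)) * ∑ i ∈ range R, Ph S F 1 1 M (S^[M * i] z.1) (S^[M * i] z.2) := fun z =>
    Ph_pt hF M R hM hR z.1 z.2
  have h1 : ∫ z, Ph S F 1 1 (M * R) z.1 z.2 ∂l ≤
      ∫ z, (1 / (R : ℝ)) * ∑ i ∈ range R, Ph S F 1 1 M (S^[M * i] z.1) (S^[M * i] z.2) ∂l :=
    integral_mono (gi_cont l hcA) (gi_cont l hcB) hpt
  refine h1.trans ?_
  rw [integral_const_mul, integral_finsetSum _ fun i _ => gi_cont l (hcs i)]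
  have h2 : ∀ i : ℕ, ∫ z, Ph S F 1 1 M (S^[M * i] z.1) (S^[M * i] z.2) ∂l = ∫ z, Ph S F 1 1 M z.1 z.2 ∂l := fun i =>
    bG_shift l hl (M * i) (fun z : Y × Y => Ph S F 1 1 M z.1 z.2) (Ph_cont hS 1 1 M)
  rw [Finset.sum_congr rfl fun i _ => h2 i, Finset.sum_const, Finset.card_range, nsmul_eq_mul]
  have hR' : (0 : ℝ) < R := by exact_mod_cast hR
  apply le_of_eq
  field_simp

/-! ### the integrals -/

variable {ν : Measure Y}

theorem aG_le (hF : Gr κ S F) [IsProbabilityMeasure ν] (n : ℕ) : ‖aG ν F n‖ ≤ 1 := by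
  unfold aG
  exact (norm_integral_le_of_norm_le_const (C := (1 : ℝ)) (ae_of_all _ fun z => F_le hF n z)).trans (by simp)

end Pool.Agent.Lib.MP_9fe581_an.HG
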