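import Pool.Agent.Lib.MP_9fe581_an.HX.Defs
import Pool.Agent.Lib.MP_9fe581_an.HX.DefsQ
import Pool.Agent.Lib.MP_9fe581_an.HD.AbsMono
import Pool.Agent.Lib.MP_9fe581_an.HD.Vdc

/-!
# HG: Gram families

`F n` continuous functions on the base `Y`; `GrSeq S F y d`: the vectors `d 0, d 1, ...` have the Gram matrix
`<d l, d l'> = F (l - l') (S^l' y)`.  Nothing is assumed on the dependence of `d` on the point.
-/

set_option autoImplicit false
set_option linter.unusedSectionVars false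

open Finset MeasureTheory Filter Topology
open scoped ComplexConjugate

namespace Pool.Agent.Lib.MP_9fe581_an.HG

open Pool.Agent.Lib.MP_9fe581_an.HD Pool.Agent.Lib.MP_9fe581_an.HX

variable {Y : Type} [TopologicalSpace Y] {κ : Type} [Fintype κ] {S : Y → Y} {F : ℕ → C(Y, ℂ)}

/-- a sequence of vectors over the point `y` with the Gram matrix given by `F` -/
def GrSeq (S : Y → Y) (F : ℕ → C(Y, ℂ)) (y : Y) (d : ℕ → κ → ℂ) : Prop :=
  ∀ l l', l' ≤ l → ∑ k, d l k * conj (d l' k) = F (l - l') (S^[l'] y)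

/-- a Gram family: such sequences exist over all points, norms at most 1 -/
structure Gr (κ : Type) [Fintype κ] (S : Y → Y) (F : ℕ → C(Y, ℂ)) : Prop where
  ex : ∀ y, ∃ d : ℕ → κ → ℂ, GrSeq S F y d
  bd : ∀ y, ‖F 0 y‖ ≤ 1

theorem GrSeq.shift {y : Y} {d : ℕ → κ → ℂ} (h : GrSeq S F y d) (m : ℕ) :
    GrSeq S F (S^[m] y) fun l => d (l + m) := by
  intro l l' hl
  have h1 := h (l + m) (l' + m) (by omega)
  rw [show l + m - (l' + m) = l - l' by omega, Function.iterate_add_apply] at h1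
  exact h1

theorem GrSeq.normSq {y : Y} {d : ℕ → κ → ℂ} (h : GrSeq S F y d) (l : ℕ) :
    ((∑ k, ‖d l k‖ ^ 2 : ℝ) : ℂ) = F 0 (S^[l] y) := by
  have h1 := h l l le_rfl
  rw [Nat.sub_self] at h1
  rw [← h1]
  push_cast
  exact Finset.sum_congr rfl fun k _ => (Complex.mul_conj' _).symm

theorem GrSeq.norm_le (hF : Gr κ S F) {y : Y} {d : ℕ → κ → ℂ} (h : GrSeq S F y d) (l : ℕ) :
    ∑ k, ‖d l k‖ ^ 2 ≤ 1 := by
  have h1 := h.normSq l
  have h2 := hF.bd (S^[l] y)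
  rw [← h1, Complex.norm_real, Real.norm_of_nonneg (Finset.sum_nonneg fun k _ => by positivity)] at h2
  exact h2

theorem GrSeq.entry_le (hF : Gr κ S F) {y : Y} {d : ℕ → κ → ℂ} (h : GrSeq S F y d) (l : ℕ) (k : κ) : ‖d l k‖ ≤ 1 := by
  have h1 := (Finset.single_le_sum (f := fun k => ‖d l k‖ ^ 2) (fun k _ => by positivity) (Finset.mem_univ k)).trans
    (h.norm_le hF l)
  nlinarith [norm_nonneg (d l k)]

theorem gr_cs (x y : κ → ℂ) (hx : ∑ k, ‖x k‖ ^ 2 ≤ 1) (hy : ∑ k, ‖y k‖ ^ 2 ≤ 1) :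
    ‖∑ k, x k * conj (y k)‖ ≤ 1 := by
  refine (norm_sum_le _ _).trans ?_
  have h1 : ∀ k ∈ (Finset.univ : Finset κ), ‖x k * conj (y k)‖ ≤ (‖x k‖ ^ 2 + ‖y k‖ ^ 2) / 2 := by
    intro k _
    rw [norm_mul, RCLike.norm_conj]
    nlinarith [sq_nonneg (‖x k‖ - ‖y k‖)]
  refine (Finset.sum_le_sum h1).trans ?_
  rw [← Finset.sum_div, Finset.sum_add_distrib]
  linarith

theorem F_le (hF : Gr κ S F) (n : ℕ) (y : Y) : ‖F n y‖ ≤ 1 := by
  obtain ⟨d, hd⟩ := hF.ex y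
  have h1 := hd n 0 (Nat.zero_le n)
  rw [Nat.sub_zero, Function.iterate_zero, id] at h1
  rw [← h1]
  exact gr_cs _ _ (hd.norm_le hF n) (hd.norm_le hF 0)

/-- the Gram entries at the times `p l`, `p l'` -/
noncomputable def sF (S : Y → Y) (F : ℕ → C(Y, ℂ)) (p l l' : ℕ) (y : Y) : ℂ :=
  if l' ≤ l then F (p * (l - l')) (S^[p * l'] y) else conj (F (p * (l' - l)) (S^[p * l] y))

theorem sF_eq {y : Y} {d : ℕ → κ → ℂ} (h : GrSeq S F y d) (p l l' : ℕ) :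
    sF S F p l l' y = ∑ k, d (p * l) k * conj (d (p * l') k) := by
  unfold sF
  split_ifs with hl
  · rw [h (p * l) (p * l') (Nat.mul_le_mul le_rfl hl), Nat.mul_sub]
  · have h1 := h (p * l') (p * l) (Nat.mul_le_mul le_rfl (by omega))
    rw [Nat.mul_sub, ← h1, map_sum]
    refine Finset.sum_congr rfl fun k _ => ?_
    rw [map_mul, Complex.conj_conj, mul_comm]

theorem sF_symm (p l l' : ℕ) (y : Y) (hF : Gr κ S F) : sF S F p l' l y = conj (sF S F p l l' y) := by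
  obtain ⟨d, hd⟩ := hF.ex y
  rw [sF_eq hd, sF_eq hd, map_sum]
  refine Finset.sum_congr rfl fun k _ => ?_
  rw [map_mul, Complex.conj_conj, mul_comm]

theorem sF_cont (hS : Continuous S) (p l l' : ℕ) : Continuous (sF S F p l l') := by
  unfold sF
  split_ifs
  · exact (F _).continuous.comp (hS.iterate _)
  · exact Complex.continuous_conj.comp ((F _).continuous.comp (hS.iterate _))

/-- Hilbert - Schmidt norm squared of `(1/L) ∑ d_{pl} ⊗ conj e_{ql}` -/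
noncomputable def Ph (S : Y → Y) (F : ℕ → C(Y, ℂ)) (p q L : ℕ) (u v : Y) : ℝ :=
  (1 / (L : ℝ) ^ 2) * ∑ l ∈ range L, ∑ l' ∈ range L, (sF S F p l l' u * conj (sF S F q l l' v)).re

theorem Ph_eq {u v : Y} {d e : ℕ → κ → ℂ} (hd : GrSeq S F u d) (he : GrSeq S F v e) (p q L : ℕ) :
    Ph S F p q L u v = ∑ a, ∑ c, ‖(1 / (L : ℂ)) * ∑ l ∈ range L, d (p * l) a * conj (e (q * l) c)‖ ^ 2 := by
  have h1 : ∀ a c, ‖(1 / (L : ℂ)) * ∑ l ∈ range L, d (p * l) a * conj (e (q * l) c)‖ ^ 2 =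
      (1 / (L : ℝ) ^ 2) * ∑ l ∈ range L, ∑ l' ∈ range L,
        ((d (p * l) a * conj (d (p * l') a)) * conj (e (q * l) c * conj (e (q * l') c))).re := by
    intro a c
    have h2 : ((‖∑ l ∈ range L, d (p * l) a * conj (e (q * l) c)‖ ^ 2 : ℝ) : ℂ) =
        ∑ l ∈ range L, ∑ l' ∈ range L, (d (p * l) a * conj (d (p * l') a)) * conj (e (q * l) c * conj (e (q * l') c)) := by
      push_cast
      rw [← Complex.mul_conj', map_sum, Finset.sum_mul_sum]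
      refine Finset.sum_congr rfl fun l _ => Finset.sum_congr rfl fun l' _ => ?_
      simp only [map_mul, Complex.conj_conj]
      ring
    have h3 := congrArg Complex.re h2
    rw [Complex.ofReal_re, Complex.re_sum] at h3
    simp only [Complex.re_sum] at h3
    rw [norm_mul, mul_pow, h3, norm_div, norm_one, Complex.norm_natCast, div_pow, one_pow]
  simp_rw [h1]
  unfold Ph
  have h4 : ∀ l l', (sF S F p l l' u * conj (sF S F q l l' v)).re =
      ∑ a, ∑ c, ((d (p * l) a * conj (d (p * l') a)) * conj (e (q * l) c * conj (e (q * l') c))).re := by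
    intro l l'
    rw [sF_eq hd, sF_eq he, map_sum, Finset.sum_mul_sum, Complex.re_sum]
    exact Finset.sum_congr rfl fun a _ => Complex.re_sum _ _
  simp_rw [h4]
  simp_rw [← Finset.mul_sum]
  congr 1
  have h5 : ∀ g : ℕ → ℕ → κ → κ → ℝ, (∑ l ∈ range L, ∑ l' ∈ range L, ∑ a, ∑ c, g l l' a c) =
      ∑ a, ∑ c, ∑ l ∈ range L, ∑ l' ∈ range L, g l l' a c := by
    intro g
    have h6 : ∀ h : κ → κ → ℝ, (∑ a, ∑ c, h a c) = ∑ x : κ × κ, h x.1 x.2 := by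
      intro h; simp [Fintype.sum_prod_type]
    simp_rw [h6]
    symm
    rw [Finset.sum_comm]
    exact Finset.sum_congr rfl fun l _ => Finset.sum_comm
  exact h5 _

theorem Ph_nonneg (hF : Gr κ S F) (p q L : ℕ) (u v : Y) : 0 ≤ Ph S F p q L u v := by
  obtain ⟨d, hd⟩ := hF.ex u
  obtain ⟨e, he⟩ := hF.ex v
  rw [Ph_eq hd he]
  exact Finset.sum_nonneg fun a _ => Finset.sum_nonneg fun c _ => by positivity

theorem Ph_cont (hS : Continuous S) (p q L : ℕ) : Continuous fun z : Y × Y => Ph S F p q L z.1 z.2 := by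
  unfold Ph
  refine continuous_const.mul (continuous_finsetSum _ fun l _ => continuous_finsetSum _ fun l' _ => ?_)
  refine Complex.continuous_re.comp (((sF_cont hS p l l').comp continuous_fst).mul
    (Complex.continuous_conj.comp ((sF_cont hS q l l').comp continuous_snd)))

theorem sum_Ph (P : Finset ℕ) (L : ℕ) (u : ℕ → Y) :
    ∑ p ∈ P, ∑ q ∈ P, Ph S F p q L (u p) (u q) =
      (1 / (L : ℝ) ^ 2) * ∑ l ∈ range L, ∑ l' ∈ range L, ‖∑ p ∈ P, sF S F p l l' (u p)‖ ^ 2 := by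
  unfold Ph
  simp_rw [← Finset.mul_sum]
  congr 1
  have h5 : ∀ g : ℕ → ℕ → ℕ → ℕ → ℝ, (∑ p ∈ P, ∑ q ∈ P, ∑ l ∈ range L, ∑ l' ∈ range L, g p q l l') =
      ∑ l ∈ range L, ∑ l' ∈ range L, ∑ p ∈ P, ∑ q ∈ P, g p q l l' := by
    intro g
    have h6 : ∀ h : ℕ → ℕ → ℝ, (∑ p ∈ P, ∑ q ∈ P, h p q) = ∑ x ∈ P ×ˢ P, h x.1 x.2 := by
      intro h; rw [Finset.sum_product]
    simp_rw [h6]
    rw [Finset.sum_comm]
    exact Finset.sum_congr rfl fun l _ => Finset.sum_comm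
  rw [h5]
  refine Finset.sum_congr rfl fun l _ => Finset.sum_congr rfl fun l' _ => ?_
  have h7 : ((‖∑ p ∈ P, sF S F p l l' (u p)‖ ^ 2 : ℝ) : ℂ) =
      ∑ p ∈ P, ∑ q ∈ P, sF S F p l l' (u p) * conj (sF S F q l l' (u q)) := by
    push_cast
    rw [← Complex.mul_conj', map_sum, Finset.sum_mul_sum]
  have h8 := congrArg Complex.re h7
  rw [Complex.ofReal_re, Complex.re_sum] at h8
  simp only [Complex.re_sum] at h8
  exact h8.symm

/-! ### van der Corput -/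

theorem win_map (M1 M : ℕ) : Ioc M1 (M1 + M) = (Icc 1 M).map (addLeftEmbedding M1) := by
  ext x
  simp only [Finset.mem_Ioc, Finset.mem_map, Finset.mem_Icc, addLeftEmbedding_apply]
  constructor
  · intro hx
    exact ⟨x - M1, by omega, by omega⟩
  · rintro ⟨a, ha, rfl⟩
    omega

theorem sum_win (f : ℕ → ℂ) (M1 M : ℕ) : ∑ m ∈ Ioc M1 (M1 + M), f m = ∑ m ∈ Icc 1 M, f (M1 + m) := by
  rw [win_map, Finset.sum_map]
  rfl

theorem gr_vdc (hF : Gr κ S F) {y : Y} {d : ℕ → κ → ℂ} (hd : GrSeq S F y d) (p q L : ℕ) (hL : 0 < L) (M1 M : ℕ) (t : κ) :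
    ‖∑ m ∈ Ioc M1 (M1 + M), d (p * m) t * conj (d (q * m) t)‖ ≤
      (∑ m ∈ Ioc M1 (M1 + M), Real.sqrt (Ph S F p q L (S^[p * m] y) (S^[q * m] y))) + 2 * L := by
  set w : ℕ → ℂ := fun m => d (p * m) t * conj (d (q * m) t) with hw
  have hw1 : ∀ n, ‖w n‖ ≤ 1 := by
    intro n
    rw [hw]
    simp only
    rw [norm_mul, Complex.norm_conj]
    calc ‖d (p * n) t‖ * ‖d (q * n) t‖ ≤ 1 * 1 :=
          mul_le_mul (hd.entry_le hF _ t) (hd.entry_le hF _ t) (norm_nonneg _) zero_le_one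
      _ = 1 := one_mul 1
  have h1 := vdc_avg (fun n => w (M1 + n)) (fun n => hw1 _) M L hL
  have hpt : ∀ m, ‖(1 / (L : ℂ)) * ∑ l ∈ range L, w (m + l)‖ ≤
      Real.sqrt (Ph S F p q L (S^[p * m] y) (S^[q * m] y)) := by
    intro m
    have h3 : (1 / (L : ℂ)) * ∑ l ∈ range L, w (m + l) =
        (1 / (L : ℂ)) * ∑ l ∈ range L, (fun l => d (l + p * m)) (p * l) t * conj ((fun l => d (l + q * m)) (q * l) t) := by
      congr 1
      refine Finset.sum_congr rfl fun l _ => ?_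
      rw [hw]
      simp only
      rw [show p * (m + l) = p * l + p * m by ring, show q * (m + l) = q * l + q * m by ring]
    rw [h3]
    refine Real.le_sqrt_of_sq_le ?_
    rw [Ph_eq (hd.shift (p * m)) (hd.shift (q * m))]
    refine le_trans ?_ (Finset.single_le_sum (f := fun a => ∑ c, ‖(1 / (L : ℂ)) * ∑ l ∈ range L,
      (fun l => d (l + p * m)) (p * l) a * conj ((fun l => d (l + q * m)) (q * l) c)‖ ^ 2)
      (fun a _ => Finset.sum_nonneg fun c _ => by positivity) (Finset.mem_univ t))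
    exact Finset.single_le_sum (f := fun c => ‖(1 / (L : ℂ)) * ∑ l ∈ range L,
      (fun l => d (l + p * m)) (p * l) t * conj ((fun l => d (l + q * m)) (q * l) c)‖ ^ 2)
      (fun c _ => by positivity) (Finset.mem_univ t)
  have hR : ∑ m ∈ Ioc M1 (M1 + M), Real.sqrt (Ph S F p q L (S^[p * m] y) (S^[q * m] y)) =
      ∑ m ∈ Icc 1 M, Real.sqrt (Ph S F p q L (S^[p * (M1 + m)] y) (S^[q * (M1 + m)] y)) := by
    rw [win_map, Finset.sum_map]
    rfl
  rw [hR, sum_win]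
  have h2 : ‖∑ m ∈ Icc 1 M, (1 / (L : ℂ)) * ∑ l ∈ range L, w (M1 + (m + l))‖ ≤
      ∑ m ∈ Icc 1 M, Real.sqrt (Ph S F p q L (S^[p * (M1 + m)] y) (S^[q * (M1 + m)] y)) := by
    refine (norm_sum_le _ _).trans (Finset.sum_le_sum fun m _ => ?_)
    have h := hpt (M1 + m)
    simpa only [add_assoc] using h
  have h8 : ∑ m ∈ Icc 1 M, w (M1 + m) =
      (∑ m ∈ Icc 1 M, w (M1 + m) - ∑ m ∈ Icc 1 M, (1 / (L : ℂ)) * ∑ l ∈ range L, w (M1 + (m + l))) +
        ∑ m ∈ Icc 1 M, (1 / (L : ℂ)) * ∑ l ∈ range L, w (M1 + (m + l)) := by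
    rw [sub_add_cancel]
  rw [h8]
  refine (norm_add_le _ _).trans ?_
  have h1' : ‖∑ m ∈ Icc 1 M, w (M1 + m) - ∑ m ∈ Icc 1 M, (1 / (L : ℂ)) * ∑ l ∈ range L, w (M1 + (m + l))‖ ≤ 2 * L := h1
  linarith

/-! ### the sum over the pairs -/

theorem gr_comb (J : ℕ → ℝ) (hJ : ∀ r, 0 ≤ J r) (L l : ℕ) (hl : l < L) :
    ∑ l' ∈ range L, J (if l' ≤ l then l - l' else l' - l) ≤ J 0 + 2 * ∑ r ∈ Ico 1 L, J r := by
  rw [← Finset.sum_range_add_sum_Ico _ (show l + 1 ≤ L by omega)]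
  have h1 : ∑ l' ∈ range (l + 1), J (if l' ≤ l then l - l' else l' - l) = J 0 + ∑ r ∈ Ico 1 (l + 1), J r := by
    have h2 : ∑ l' ∈ range (l + 1), J (if l' ≤ l then l - l' else l' - l) = ∑ l' ∈ range (l + 1), J (l + 1 - 1 - l') := by
      refine Finset.sum_congr rfl fun l' h' => ?_
      rw [Finset.mem_range] at h'
      rw [if_pos (by omega)]; rfl
    rw [h2, Finset.sum_range_reflect J (l + 1), ← Finset.sum_range_add_sum_Ico _ (show 1 ≤ l + 1 by omega),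
      Finset.sum_range_one]
  have h3 : ∑ l' ∈ Ico (l + 1) L, J (if l' ≤ l then l - l' else l' - l) = ∑ r ∈ Ico 1 (L - l), J r := by
    rw [Finset.sum_Ico_eq_sum_range, Finset.sum_Ico_eq_sum_range, show L - (l + 1) = L - l - 1 by omega]
    refine Finset.sum_congr rfl fun i _ => ?_
    rw [if_neg (by omega), show l + 1 + i - l = 1 + i by omega]
  have h4 : ∑ r ∈ Ico 1 (l + 1), J r ≤ ∑ r ∈ Ico 1 L, J r :=
    Finset.sum_le_sum_of_subset_of_nonneg (Finset.Ico_subset_Ico_right (by omega)) fun i _ _ => hJ i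
  have h5 : ∑ r ∈ Ico 1 (L - l), J r ≤ ∑ r ∈ Ico 1 L, J r :=
    Finset.sum_le_sum_of_subset_of_nonneg (Finset.Ico_subset_Ico_right (by omega)) fun i _ _ => hJ i
  rw [h1, h3]; linarith

theorem gr_gt (P : Finset ℕ) (M1 M : ℕ) (y : Y) (l l' : ℕ) (h : l' ≤ l) :
    ∑ m ∈ Ioc M1 (M1 + M), ‖∑ p ∈ P, sF S F p l l' (S^[p * m] y)‖ ^ 2 =
      ∑ m ∈ Ioc (M1 + l') (M1 + l' + M), ‖∑ p ∈ P, F (p * (l - l')) (S^[p * m] y)‖ ^ 2 := by
  have h1 : M1 + l' + M = M1 + M + l' := by ring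
  rw [h1, ← Finset.map_add_right_Ioc, Finset.sum_map]
  refine Finset.sum_congr rfl fun m _ => ?_
  congr 2
  refine Finset.sum_congr rfl fun p _ => ?_
  unfold sF
  rw [if_pos h, ← Function.iterate_add_apply]
  congr 2
  change p * l' + p * m = p * (m + l')
  ring

theorem gr_pairs (hF : Gr κ S F) (P : Finset ℕ) (L : ℕ) (hL : 0 < L) (M1 M : ℕ) (y : Y) (E : ℕ → ℝ)
    (hE : ∀ r ∈ Ico 1 L, ∀ M' : ℕ, ∑ m ∈ Ioc M' (M' + M), ‖∑ p ∈ P, F (p * r) (S^[p * m] y)‖ ^ 2 ≤ E r) :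
    ∑ m ∈ Ioc M1 (M1 + M), ∑ p ∈ P, ∑ q ∈ P, Ph S F p q L (S^[p * m] y) (S^[q * m] y) ≤
      (P.card : ℝ) ^ 2 * M / L + (2 / L) * ∑ r ∈ Ico 1 L, E r := by
  have hL' : (0 : ℝ) < L := Nat.cast_pos.2 hL
  obtain ⟨D, hD⟩ : ∃ D : ℝ, D = (P.card : ℝ) ^ 2 * M := ⟨_, rfl⟩
  have hD0 : 0 ≤ D := by rw [hD]; positivity
  obtain ⟨J, hJdef⟩ : ∃ J : ℕ → ℝ, J = fun r => if r = 0 then D else if r < L then E r else 0 :=
    ⟨_, rfl⟩
  have hE0 : ∀ r ∈ Ico 1 L, 0 ≤ E r := fun r hr =>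
    (Finset.sum_nonneg fun m _ => by positivity).trans (hE r hr 0)
  have hJ : ∀ r, 0 ≤ J r := by
    intro r
    rw [hJdef]
    dsimp only
    split_ifs with h1 h2
    · exact hD0
    · exact hE0 r (Finset.mem_Ico.2 ⟨by omega, h2⟩)
    · exact le_rfl
  have hJ0 : J 0 = D := by rw [hJdef]; simp
  have hJE : ∀ r ∈ Ico 1 L, J r = E r := by
    intro r hr
    rw [Finset.mem_Ico] at hr
    rw [hJdef]
    dsimp only
    rw [if_neg (by omega), if_pos hr.2]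
  have key : ∀ l < L, ∀ l' ≤ l,
      ∑ m ∈ Ioc M1 (M1 + M), ‖∑ p ∈ P, sF S F p l l' (S^[p * m] y)‖ ^ 2 ≤ J (l - l') := by
    intro l hl l' h
    rw [gr_gt P M1 M y l l' h]
    rcases Nat.eq_zero_or_pos (l - l') with h0 | h0
    · rw [h0, hJ0, hD]
      have hb : ∀ m ∈ Ioc (M1 + l') (M1 + l' + M), ‖∑ p ∈ P, F (p * 0) (S^[p * m] y)‖ ^ 2 ≤ (P.card : ℝ) ^ 2 := by
        intro m _
        have h1 : ‖∑ p ∈ P, F (p * 0) (S^[p * m] y)‖ ≤ P.card := by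
          refine (norm_sum_le _ _).trans ?_
          refine (Finset.sum_le_sum fun p _ => F_le hF _ _).trans ?_
          rw [Finset.sum_const, nsmul_eq_mul, mul_one]
        exact pow_le_pow_left₀ (norm_nonneg _) h1 2
      refine (Finset.sum_le_card_nsmul _ _ _ hb).trans (le_of_eq ?_)
      rw [Nat.card_Ioc, Nat.add_sub_cancel_left, nsmul_eq_mul]
      ring
    · have hr : l - l' ∈ Ico 1 L := Finset.mem_Ico.2 ⟨h0, by omega⟩
      rw [hJE _ hr]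
      exact hE _ hr (M1 + l')
  have key2 : ∀ l < L, ∀ l' < L,
      ∑ m ∈ Ioc M1 (M1 + M), ‖∑ p ∈ P, sF S F p l l' (S^[p * m] y)‖ ^ 2 ≤
        J (if l' ≤ l then l - l' else l' - l) := by
    intro l hl l' hl'
    by_cases h : l' ≤ l
    · rw [if_pos h]
      exact key l hl l' h
    · rw [if_neg h]
      refine le_trans (le_of_eq ?_) (key l' hl' l (by omega))
      refine Finset.sum_congr rfl fun m _ => ?_
      have h1 : ∑ p ∈ P, sF S F p l l' (S^[p * m] y) = conj (∑ p ∈ P, sF S F p l' l (S^[p * m] y)) := by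
        rw [map_sum]
        exact Finset.sum_congr rfl fun p _ => sF_symm p l' l _ hF
      rw [h1, Complex.norm_conj]
  have h1 : ∑ m ∈ Ioc M1 (M1 + M), ∑ p ∈ P, ∑ q ∈ P, Ph S F p q L (S^[p * m] y) (S^[q * m] y) =
      (1 / (L : ℝ) ^ 2) * ∑ l ∈ range L, ∑ l' ∈ range L,
        ∑ m ∈ Ioc M1 (M1 + M), ‖∑ p ∈ P, sF S F p l l' (S^[p * m] y)‖ ^ 2 := by
    have h2 : ∀ m ∈ Ioc M1 (M1 + M),
        ∑ p ∈ P, ∑ q ∈ P, Ph S F p q L (S^[p * m] y) (S^[q * m] y) =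
          (1 / (L : ℝ) ^ 2) * ∑ l ∈ range L, ∑ l' ∈ range L,
            ‖∑ p ∈ P, sF S F p l l' (S^[p * m] y)‖ ^ 2 := fun m _ =>
      sum_Ph P L (fun p => S^[p * m] y)
    rw [Finset.sum_congr rfl h2, ← Finset.mul_sum, Finset.sum_comm]
    congr 1
    refine Finset.sum_congr rfl fun l _ => ?_
    rw [Finset.sum_comm]
  have h2 : ∑ l ∈ range L, ∑ l' ∈ range L,
      ∑ m ∈ Ioc M1 (M1 + M), ‖∑ p ∈ P, sF S F p l l' (S^[p * m] y)‖ ^ 2 ≤
        L * (D + 2 * ∑ r ∈ Ico 1 L, E r) := by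
    have h3 : ∀ l ∈ range L, ∑ l' ∈ range L,
        ∑ m ∈ Ioc M1 (M1 + M), ‖∑ p ∈ P, sF S F p l l' (S^[p * m] y)‖ ^ 2 ≤
          D + 2 * ∑ r ∈ Ico 1 L, E r := by
      intro l hl
      rw [Finset.mem_range] at hl
      refine (Finset.sum_le_sum fun l' hl' => key2 l hl l' (Finset.mem_range.1 hl')).trans ?_
      refine (gr_comb J hJ L l hl).trans (le_of_eq ?_)
      rw [hJ0, Finset.sum_congr rfl hJE]
    refine (Finset.sum_le_card_nsmul _ _ _ h3).trans (le_of_eq ?_)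
    rw [Finset.card_range, nsmul_eq_mul]
  rw [h1]
  calc (1 / (L : ℝ) ^ 2) * ∑ l ∈ range L, ∑ l' ∈ range L,
        ∑ m ∈ Ioc M1 (M1 + M), ‖∑ p ∈ P, sF S F p l l' (S^[p * m] y)‖ ^ 2
      ≤ (1 / (L : ℝ) ^ 2) * (L * (D + 2 * ∑ r ∈ Ico 1 L, E r)) :=
        mul_le_mul_of_nonneg_left h2 (by positivity)
    _ = D / L + (2 / L) * ∑ r ∈ Ico 1 L, E r := by field_simp
    _ = _ := by rw [hD]

end Pool.Agent.Lib.MP_9fe581_an.HG
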