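import Pool.Agent.Lib.MP_9fe581_an.HD.AbsSpec

/-!
# HG: a vector space with a semi inner product and an isometry; splitting off the rational spectrum
-/

set_option autoImplicit false

open Finset MeasureTheory Filter Topology
open scoped ComplexConjugate

namespace Pool.Agent.Lib.MP_9fe581_an.HG

open Pool.Agent.Lib.MP_9fe581_an.HD

theorem gh_compl0 {E : Type} [SeminormedAddCommGroup E] [InnerProductSpace ℂ E] (V : E →ₗ[ℂ] E)
    (hV : ∀ x y : E, inner ℂ (V x) (V y) = inner ℂ x y) :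
    ∃ W : UniformSpace.Completion E →ₗᵢ[ℂ] UniformSpace.Completion E, ∀ x : E, W x = (V x : UniformSpace.Completion E) := by
  have hn : ∀ x, ‖V x‖ = ‖x‖ := by
    intro x
    have h1 : ‖V x‖ ^ 2 = ‖x‖ ^ 2 := by rw [@norm_sq_eq_re_inner ℂ, @norm_sq_eq_re_inner ℂ, hV]
    exact (pow_left_inj₀ (norm_nonneg _) (norm_nonneg _) two_ne_zero).1 h1
  let Vc : E →ₗᵢ[ℂ] E := ⟨V, hn⟩
  let e : E →L[ℂ] UniformSpace.Completion E := UniformSpace.Completion.toComplL
  let f : E →L[ℂ] UniformSpace.Completion E := e.comp Vc.toContinuousLinearMap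
  have hd : DenseRange e := UniformSpace.Completion.denseRange_coe
  have hu : IsUniformInducing e := UniformSpace.Completion.isUniformInducing_coe E
  let W0 : UniformSpace.Completion E →L[ℂ] UniformSpace.Completion E := f.extend e
  have hW0 : ∀ x : E, W0 x = (V x : UniformSpace.Completion E) := fun x => ContinuousLinearMap.extend_eq f hd hu x
  refine ⟨⟨W0.toLinearMap, fun z => ?_⟩, hW0⟩
  refine UniformSpace.Completion.induction_on z
    (isClosed_eq (continuous_norm.comp W0.continuous) continuous_norm) fun a => ?_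
  change ‖W0 a‖ = ‖(a : UniformSpace.Completion E)‖
  rw [hW0, UniformSpace.Completion.norm_coe, UniformSpace.Completion.norm_coe, hn]

theorem gh_compl {E : Type} [AddCommGroup E] [Module ℂ E] (c : PreInnerProductSpace.Core ℂ E) (V : E →ₗ[ℂ] E)
    (hV : ∀ x y, c.inner (V x) (V y) = c.inner x y) :
    ∃ (H : Type) (_ : NormedAddCommGroup H) (_ : InnerProductSpace ℂ H) (_ : CompleteSpace H) (j : E →ₗ[ℂ] H)
      (W : H →ₗᵢ[ℂ] H), DenseRange j ∧ (∀ x y, inner ℂ (j x) (j y) = c.inner x y) ∧ ∀ x, W (j x) = j (V x) := by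
  letI : SeminormedAddCommGroup E := @InnerProductSpace.Core.toSeminormedAddCommGroup ℂ E _ _ _ c
  letI : InnerProductSpace ℂ E := InnerProductSpace.ofCore c
  obtain ⟨W, hW⟩ := gh_compl0 V hV
  exact ⟨UniformSpace.Completion E, inferInstance, inferInstance, inferInstance,
    (UniformSpace.Completion.toComplₗᵢ (𝕜 := ℂ) (E := E)).toLinearMap, W, UniformSpace.Completion.denseRange_coe,
    fun x y => UniformSpace.Completion.inner_coe x y, hW⟩

/-- the splitting, in terms of the vector space only -/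
theorem gh_split {E : Type} [AddCommGroup E] [Module ℂ E] (c : PreInnerProductSpace.Core ℂ E) (V : E →ₗ[ℂ] E)
    (hV : ∀ x y, c.inner (V x) (V y) = c.inner x y) (v : E) :
    ∃ K : ℝ, 0 ≤ K ∧ ∀ ε : ℝ, 0 < ε → ε ≤ 1 → ∃ (m : ℕ) (w : Fin m → ℂ) (h : Fin m → E) (C : E),
      (∀ s, ∃ q : ℕ, 0 < q ∧ w s ^ q = 1) ∧
      (∀ l : ℕ, (c.inner (V^[l] C - ∑ s, w s ^ l • h s) (V^[l] C - ∑ s, w s ^ l • h s)).re ≤ ε ^ 2) ∧
      ∃ a' : ℕ → ℂ, PosDef a' ∧ (a' 0).im = 0 ∧ (∀ n, ‖a' n‖ ≤ (2 * K + 2) ^ 2) ∧ NoRat a' ∧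
        ∀ n : ℕ, ‖c.inner (v - C) (V^[n] (v - C)) - a' n‖ ≤ 4 * (2 * K + 2) * ε := by
  obtain ⟨H, i1, i2, i3, j, W, hd, hj, hW⟩ := gh_compl c V hV
  refine ⟨‖j v‖, norm_nonneg _, fun ε hε hε1 => ?_⟩
  obtain ⟨m, w, h, hw, hWh, hsp⟩ := as_split W (j v) ε hε hε1
  have hWl : ∀ (l : ℕ) (x : E), W^[l] (j x) = j (V^[l] x) := by
    intro l x
    induction l with
    | zero => rfl
    | succ l ih => rw [Function.iterate_succ_apply', Function.iterate_succ_apply', ih, hW]
  have hwn : ∀ s, ‖w s‖ = 1 := by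
    intro s
    obtain ⟨q, hq0, hq1⟩ := hw s
    have := congrArg norm hq1
    rw [norm_pow, norm_one] at this
    exact (pow_eq_one_iff_of_nonneg (norm_nonneg _) hq0.ne').1 this
  obtain ⟨C, hC⟩ := hd.exists_dist_lt (∑ s, h s) (half_pos hε)
  have hm : (0 : ℝ) < 2 * ((m : ℝ) + 1) := by positivity
  have hh : ∀ s, ∃ g : E, dist (h s) (j g) < ε / (2 * ((m : ℝ) + 1)) := fun s => hd.exists_dist_lt (h s) (by positivity)
  choose g hg using hh
  have hCn : ‖j C - ∑ s, h s‖ ≤ ε / 2 := by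
    rw [← dist_eq_norm, dist_comm]; exact hC.le
  refine ⟨m, w, g, C, hw, fun l => ?_, ?_⟩
  · have e1 : (c.inner (V^[l] C - ∑ s, w s ^ l • g s) (V^[l] C - ∑ s, w s ^ l • g s)).re =
        ‖j (V^[l] C - ∑ s, w s ^ l • g s)‖ ^ 2 := by
      rw [@norm_sq_eq_re_inner ℂ, hj]
      rfl
    rw [e1]
    refine pow_le_pow_left₀ (norm_nonneg _) ?_ 2
    have hlin : ∀ (l : ℕ) (x y : H), W^[l] (x - y) = W^[l] x - W^[l] y := by
      intro l x y
      induction l with
      | zero => rfl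
      | succ l ih =>
        rw [Function.iterate_succ_apply', Function.iterate_succ_apply', Function.iterate_succ_apply', ih, map_sub]
    have hsum : ∀ l : ℕ, W^[l] (∑ s, h s) = ∑ s, w s ^ l • h s := by
      intro l
      induction l with
      | zero => simp
      | succ l ih =>
        rw [Function.iterate_succ_apply', ih, map_sum]
        refine Finset.sum_congr rfl fun s _ => ?_
        rw [map_smul, hWh, smul_smul, pow_succ]
    have e2 : j (V^[l] C - ∑ s, w s ^ l • g s) = W^[l] (j C - ∑ s, h s) + ∑ s, w s ^ l • (h s - j (g s)) := by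
      rw [map_sub, map_sum, hlin, hWl, hsum]
      simp only [smul_sub, Finset.sum_sub_distrib, map_smul]
      abel
    rw [e2]
    refine (norm_add_le _ _).trans ?_
    have e3 : ‖W^[l] (j C - ∑ s, h s)‖ ≤ ε / 2 := by rw [as_iter_norm]; exact hCn
    have e4 : ‖∑ s, w s ^ l • (h s - j (g s))‖ ≤ ε / 2 := by
      refine (norm_sum_le _ _).trans ?_
      have e5 : ∀ s ∈ (Finset.univ : Finset (Fin m)), ‖w s ^ l • (h s - j (g s))‖ ≤ ε / (2 * ((m : ℝ) + 1)) := by
        intro s _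
        rw [norm_smul, norm_pow, hwn, one_pow, one_mul, ← dist_eq_norm]
        exact (hg s).le
      refine (Finset.sum_le_card_nsmul _ _ _ e5).trans ?_
      rw [Finset.card_univ, Fintype.card_fin, nsmul_eq_mul, mul_div_assoc', div_le_div_iff₀ hm (by norm_num)]
      nlinarith
    linarith
  · obtain ⟨a', ha1, ha2, ha3, ha4, ha5⟩ := hsp (j C) (hCn.trans (by linarith))
    refine ⟨a', ha1, ha2, ha3, ha4, fun n => ?_⟩
    have h5 := ha5 n
    unfold cor at h5
    rw [← map_sub, hWl, hj] at h5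
    exact h5

end Pool.Agent.Lib.MP_9fe581_an.HG
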