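import Pool.Agent.Lib.MP_9fe581_an.HG.Main
import Pool.Agent.Lib.MP_9fe581_an.HG.Hilb
import Pool.Agent.Lib.MP_9fe581_an.HX.DefsZ
import Pool.Agent.Lib.MP_9fe581_an.HD.NonErg

/-!
# HG: modules of vector functions over a base with continuous Gram functions

`E` a space of functions `X → κ → ℂ`, invariant under `v ↦ v ∘ T`, such that the inner product of two elements at the point `x`
is a continuous function of the base point `π x`.  No continuity of `T` or of the elements of `E` is used.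
-/

set_option autoImplicit false
set_option linter.unusedSectionVars false

open Finset MeasureTheory Filter Topology
open scoped ComplexConjugate

namespace Pool.Agent.Lib.MP_9fe581_an.HG

open Pool.Agent.Lib.MP_9fe581_an.HD Pool.Agent.Lib.MP_9fe581_an.HX

/-- the data -/
structure HMod {X Y κ : Type} [TopologicalSpace Y] [Fintype κ] (S : Y → Y) (T : X → X) (π : X → Y)
    (E : Submodule ℂ (X → κ → ℂ)) : Prop where
  comm : ∀ x, π (T x) = S (π x)
  surj : Function.Surjective π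
  shift : ∀ v ∈ E, v ∘ T ∈ E
  gram : ∀ v ∈ E, ∀ w ∈ E, ∃ F : C(Y, ℂ), ∀ x, ∑ k, v x k * conj (w x k) = F (π x)

variable {X Y κ : Type} [TopologicalSpace Y] [Fintype κ] {S : Y → Y} {T : X → X} {π : X → Y}
  {E : Submodule ℂ (X → κ → ℂ)}

namespace HMod

/-- the Gram function of two elements -/
noncomputable def gF (h : HMod S T π E) (v w : E) : C(Y, ℂ) := (h.gram v.1 v.2 w.1 w.2).choose

theorem gF_spec (h : HMod S T π E) (v w : E) (x : X) : ∑ k, v.1 x k * conj (w.1 x k) = h.gF v w (π x) :=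
  (h.gram v.1 v.2 w.1 w.2).choose_spec x

theorem ext (h : HMod S T π E) {f g : Y → ℂ} (hfg : ∀ x, f (π x) = g (π x)) (y : Y) : f y = g y := by
  obtain ⟨x, rfl⟩ := h.surj y
  exact hfg x

theorem gF_conj (h : HMod S T π E) (v w : E) (y : Y) : conj (h.gF v w y) = h.gF w v y := by
  refine h.ext (f := fun y => conj (h.gF v w y)) (g := fun y => h.gF w v y) (fun x => ?_) y
  rw [← h.gF_spec, ← h.gF_spec, map_sum]
  refine Finset.sum_congr rfl fun k _ => ?_
  rw [map_mul, Complex.conj_conj, mul_comm]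

theorem gF_add (h : HMod S T π E) (v w z : E) (y : Y) : h.gF v (w + z) y = h.gF v w y + h.gF v z y := by
  refine h.ext (f := fun y => h.gF v (w + z) y) (g := fun y => h.gF v w y + h.gF v z y) (fun x => ?_) y
  rw [← h.gF_spec, ← h.gF_spec, ← h.gF_spec, ← Finset.sum_add_distrib]
  refine Finset.sum_congr rfl fun k _ => ?_
  rw [Submodule.coe_add, Pi.add_apply, Pi.add_apply, map_add, mul_add]

theorem gF_smul (h : HMod S T π E) (r : ℂ) (v w : E) (y : Y) : h.gF v (r • w) y = conj r * h.gF v w y := by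
  refine h.ext (f := fun y => h.gF v (r • w) y) (g := fun y => conj r * h.gF v w y) (fun x => ?_) y
  rw [← h.gF_spec, ← h.gF_spec, Finset.mul_sum]
  refine Finset.sum_congr rfl fun k _ => ?_
  rw [Submodule.coe_smul, Pi.smul_apply, Pi.smul_apply, smul_eq_mul, map_mul]
  ring

theorem gF_self (h : HMod S T π E) (v : E) (x : X) : h.gF v v (π x) = ((∑ k, ‖v.1 x k‖ ^ 2 : ℝ) : ℂ) := by
  rw [← h.gF_spec]
  push_cast
  exact Finset.sum_congr rfl fun k _ => Complex.mul_conj' _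

theorem gF_self_nonneg (h : HMod S T π E) (v : E) (y : Y) : 0 ≤ (h.gF v v y).re := by
  obtain ⟨x, rfl⟩ := h.surj y
  rw [h.gF_self, Complex.ofReal_re]
  exact Finset.sum_nonneg fun k _ => by positivity

/-- the operator `v ↦ v ∘ T` -/
def sh (h : HMod S T π E) : E →ₗ[ℂ] E where
  toFun v := ⟨v.1 ∘ T, h.shift v.1 v.2⟩
  map_add' _ _ := rfl
  map_smul' _ _ := rfl

theorem sh_iter (h : HMod S T π E) (l : ℕ) (v : E) (x : X) : (h.sh^[l] v).1 x = v.1 (T^[l] x) := by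
  induction l generalizing x with
  | zero => rfl
  | succ l ih =>
    rw [Function.iterate_succ_apply']
    change (h.sh^[l] v).1 (T x) = _
    rw [ih, Function.iterate_succ_apply]

theorem comm_iter (h : HMod S T π E) (l : ℕ) (x : X) : π (T^[l] x) = S^[l] (π x) := by
  induction l with
  | zero => rfl
  | succ l ih => rw [Function.iterate_succ_apply', Function.iterate_succ_apply', h.comm, ih]

theorem gF_sh (h : HMod S T π E) (v w : E) (y : Y) : h.gF (h.sh v) (h.sh w) y = h.gF v w (S y) := by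
  refine h.ext (f := fun y => h.gF (h.sh v) (h.sh w) y) (g := fun y => h.gF v w (S y)) (fun x => ?_) y
  rw [← h.gF_spec, ← h.comm, ← h.gF_spec]
  rfl

theorem bdd [CompactSpace Y] (h : HMod S T π E) (v : E) : ∃ R : ℝ, 0 < R ∧ ∀ x, ∑ k, ‖v.1 x k‖ ^ 2 ≤ R ^ 2 := by
  refine ⟨‖h.gF v v‖ + 1, by positivity, fun x => ?_⟩
  have h1 := (h.gF v v).norm_coe_le_norm (π x)
  rw [h.gF_self, Complex.norm_real, Real.norm_of_nonneg (Finset.sum_nonneg fun k _ => by positivity)] at h1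
  nlinarith [norm_nonneg (h.gF v v)]

theorem entry {R : ℝ} (hR : 0 < R) {v : X → κ → ℂ} (hv : ∀ x, ∑ k, ‖v x k‖ ^ 2 ≤ R ^ 2) (x : X) (k : κ) : ‖v x k‖ ≤ R := by
  have h1 := (Finset.single_le_sum (f := fun k => ‖v x k‖ ^ 2) (fun k _ => by positivity) (Finset.mem_univ k)).trans (hv x)
  exact (pow_le_pow_iff_left₀ (norm_nonneg _) hR.le two_ne_zero).1 h1

variable [CompactSpace Y] [T2Space Y] [SecondCountableTopology Y] [MeasurableSpace Y] [BorelSpace Y]

/-- the semi inner product -/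
noncomputable def core (h : HMod S T π E) (ν : Measure Y) [IsProbabilityMeasure ν] : PreInnerProductSpace.Core ℂ E where
  inner v w := ∫ y, h.gF w v y ∂ν
  conj_inner_symm v w := by
    rw [← integral_conj]
    exact integral_congr_ae (ae_of_all _ fun y => h.gF_conj v w y)
  re_inner_nonneg v := by
    have h1 := Complex.reCLM.integral_comp_comm (gi_cont ν (h.gF v v).continuous)
    simp only [Complex.reCLM_apply] at h1
    change 0 ≤ (∫ y, h.gF v v y ∂ν).re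
    rw [← h1]
    exact integral_nonneg fun y => h.gF_self_nonneg v y
  add_left v w z := by
    rw [← integral_add (gi_cont ν (h.gF z v).continuous) (gi_cont ν (h.gF z w).continuous)]
    exact integral_congr_ae (ae_of_all _ fun y => h.gF_add z v w y)
  smul_left v w r := by
    rw [← integral_const_mul]
    exact integral_congr_ae (ae_of_all _ fun y => h.gF_smul r w v y)

theorem core_inner (h : HMod S T π E) (ν : Measure Y) [IsProbabilityMeasure ν] (v w : E) :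
    (h.core ν).inner v w = ∫ y, h.gF w v y ∂ν := rfl

theorem core_sh (h : HMod S T π E) {ν : Measure Y} [IsProbabilityMeasure ν] (hS : MeasurePreserving S ν ν) (v w : E) :
    (h.core ν).inner (h.sh v) (h.sh w) = (h.core ν).inner v w := by
  rw [core_inner, core_inner]
  simp_rw [h.gF_sh]
  have h2 := integral_map (μ := ν) hS.measurable.aemeasurable (f := fun y => h.gF w v y) (h.gF w v).continuous.aestronglyMeasurable
  rw [hS.map_eq] at h2
  exact h2.symm

end HMod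

variable [CompactSpace Y] [T2Space Y] [SecondCountableTopology Y] [MeasurableSpace Y] [BorelSpace Y]
  {ν : Measure Y} [IsProbabilityMeasure ν]

theorem hm_jensen {g : Y → ℝ} (hg : Continuous g) (δ : ℝ) (hδ : 0 ≤ δ) (h : ∫ y, g y ^ 2 ∂ν ≤ δ ^ 2) :
    ∫ y, g y ∂ν ≤ δ := by
  set c := ∫ y, g y ∂ν with hc
  have h1 : 0 ≤ ∫ y, (g y - c) ^ 2 ∂ν := integral_nonneg fun y => sq_nonneg _
  have h2 : ∫ y, (g y - c) ^ 2 ∂ν = ∫ y, g y ^ 2 ∂ν - 2 * c * c + c ^ 2 := by
    have e1 : ∀ y, (g y - c) ^ 2 = g y ^ 2 - 2 * c * g y + c ^ 2 := fun y => by ring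
    simp_rw [e1]
    have i1 : Integrable (fun y => g y ^ 2 - 2 * c * g y) ν := gi_cont ν ((hg.pow 2).sub (continuous_const.mul hg))
    have i2 : Integrable (fun y => g y ^ 2) ν := gi_cont ν (hg.pow 2)
    have i3 : Integrable (fun y => 2 * c * g y) ν := gi_cont ν (continuous_const.mul hg)
    rw [integral_add i1 (integrable_const _), integral_sub i2 i3, integral_const_mul, integral_const, ← hc, probReal_univ,
      one_smul]
  have h3 : c ^ 2 ≤ δ ^ 2 := by nlinarith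
  exact le_of_sq_le_sq h3 hδ

/-- the part with discrete spectrum -/
theorem hm_part (hE : UE S ν) {u : ℕ → ℂ} (hu : ∀ n, ‖u n‖ ≤ 1) (hH : HMod S T π E)
    {m : ℕ} (w : Fin m → ℂ) (hw : ∀ s, ‖w s‖ = 1) (hS : ∀ s, ShortOrth u (w s)) (C : E) (g : Fin m → E) (δ : ℝ)
    (hδ0 : 0 ≤ δ)
    (hδ : ∀ l : ℕ, ((hH.core ν).inner (hH.sh^[l] C - ∑ s, w s ^ l • g s) (hH.sh^[l] C - ∑ s, w s ^ l • g s)).re ≤ δ ^ 2)
    (ε : ℝ) (hε : 0 < ε) :
    ∃ N0 : ℕ, ∀ N ≥ N0, ∀ (x : X) (k : κ), ‖∑ n ∈ Icc 1 N, u n * C.1 (T^[n] x) k‖ ≤ (δ + ε) * N := by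
  classical
  set K : ℝ := (m : ℝ) with hK
  have hK0 : 0 ≤ K := Nat.cast_nonneg _
  set D : ℕ → E := fun l => hH.sh^[l] C - ∑ s, w s ^ l • g s with hD
  set e : ℕ → Y → ℝ := fun l y => Real.sqrt (hH.gF (D l) (D l) y).re with he
  have hec : ∀ l, Continuous (e l) := fun l =>
    Real.continuous_sqrt.comp (Complex.continuous_re.comp (hH.gF (D l) (D l)).continuous)
  have hei : ∀ l, ∫ y, e l y ∂ν ≤ δ := by
    intro l
    refine hm_jensen (hec l) δ hδ0 ?_
    have h1 : ∀ y, e l y ^ 2 = (hH.gF (D l) (D l) y).re := fun y => Real.sq_sqrt (hH.gF_self_nonneg _ y)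
    simp_rw [h1]
    have h2 := Complex.reCLM.integral_comp_comm (gi_cont ν (hH.gF (D l) (D l)).continuous)
    simp only [Complex.reCLM_apply] at h2
    rw [h2]
    exact hδ l
  have hept : ∀ l x k, ‖(D l).1 x k‖ ≤ e l (π x) := by
    intro l x k
    refine Real.le_sqrt_of_sq_le ?_
    rw [hH.gF_self, Complex.ofReal_re]
    exact Finset.single_le_sum (f := fun k => ‖(D l).1 x k‖ ^ 2) (fun k _ => by positivity) (Finset.mem_univ k)
  obtain ⟨R, hR0, hR⟩ := hH.bdd C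
  choose R' hR'0 hR' using fun s => hH.bdd (g s)
  set M : ℝ := ∑ s, R' s + 1 with hM
  have hM0 : 0 < M := by
    have : 0 ≤ ∑ s, R' s := Finset.sum_nonneg fun s _ => (hR'0 s).le
    linarith
  have hgM : ∀ s x k, ‖(g s).1 x k‖ ≤ M := by
    intro s x k
    have e1 := HMod.entry (hR'0 s) (hR' s) x k
    have e2 := Finset.single_le_sum (f := R') (fun s _ => (hR'0 s).le) (Finset.mem_univ s)
    linarith
  set ε1 : ℝ := ε / (4 * (K + 1)) with hε1
  have hε1p : 0 < ε1 := by positivity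
  choose L0 hL0 using fun s => hS s (ε1 / M) (by positivity)
  set L : ℕ := ∑ s, L0 s + 1 with hL
  have hLs : ∀ s, L0 s ≤ L := fun s => by
    have := Finset.single_le_sum (fun i _ => Nat.zero_le (L0 i)) (Finset.mem_univ s)
    omega
  have hL1 : (1 : ℝ) ≤ L := by
    have : 1 ≤ L := by omega
    exact_mod_cast this
  choose N0 hN0 using fun s => hL0 s L (hLs s)
  set Q : Y → ℝ := fun y => ∑ l ∈ range L, e l y with hQ
  have hQc : Continuous Q := continuous_finsetSum _ fun l _ => hec l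
  have hQi : ∫ y, Q y ∂ν ≤ L * δ := by
    rw [hQ, integral_finsetSum _ fun l _ => gi_cont ν (hec l)]
    refine (Finset.sum_le_sum fun l _ => hei l).trans (le_of_eq ?_)
    rw [Finset.sum_const, Finset.card_range, nsmul_eq_mul]
  obtain ⟨N1, hN1⟩ := hE Q hQc ε1 hε1p
  obtain ⟨N2, hN2⟩ := exists_nat_ge (4 * R * L / ε)
  refine ⟨N1 + N2 + ∑ s, N0 s, fun N hN x k => ?_⟩
  have hNs : ∀ s, N0 s ≤ N := fun s => by
    have := Finset.single_le_sum (fun i _ => Nat.zero_le (N0 i)) (Finset.mem_univ s)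
    omega
  have hQN := hN1 N (by omega) (π x)
  have hblk := ne_block (fun n => u n * C.1 (T^[n] x) k) R (fun n => by
    rw [norm_mul]
    calc ‖u n‖ * ‖C.1 (T^[n] x) k‖ ≤ 1 * R := mul_le_mul (hu n) (HMod.entry hR0 hR _ k) (norm_nonneg _) zero_le_one
      _ = R := one_mul R) L N
  have hn : ∀ n ∈ Icc 1 N, ‖∑ l ∈ range L, u (n + l) * C.1 (T^[n + l] x) k‖ ≤ Q (S^[n] (π x)) +
      ∑ s, M * ‖∑ l ∈ range L, u (n + l) * w s ^ l‖ := by
    intro n _
    have hC : ∀ l, C.1 (T^[n + l] x) k = (D l).1 (T^[n] x) k + ∑ s, w s ^ l * (g s).1 (T^[n] x) k := by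
      intro l
      have e1 : (hH.sh^[l] C).1 (T^[n] x) k = C.1 (T^[n + l] x) k := by
        rw [hH.sh_iter, ← Function.iterate_add_apply, add_comm l n]
      have e2 : (D l).1 (T^[n] x) k = (hH.sh^[l] C).1 (T^[n] x) k - ∑ s, w s ^ l * (g s).1 (T^[n] x) k := by
        simp only [hD]
        rw [Submodule.coe_sub, Pi.sub_apply, Pi.sub_apply]
        congr 1
        have e3 : ((∑ s, w s ^ l • g s : E) : X → κ → ℂ) = ∑ s, w s ^ l • (g s : X → κ → ℂ) := by
          rw [AddSubmonoidClass.coe_finset_sum]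
          rfl
        rw [e3, Finset.sum_apply, Finset.sum_apply]
        rfl
      rw [e2, e1]; ring
    have e1 : ∑ l ∈ range L, u (n + l) * C.1 (T^[n + l] x) k =
        ∑ l ∈ range L, u (n + l) * (D l).1 (T^[n] x) k +
        ∑ s, (g s).1 (T^[n] x) k * (∑ l ∈ range L, u (n + l) * w s ^ l) := by
      have e2 : ∑ s, (g s).1 (T^[n] x) k * (∑ l ∈ range L, u (n + l) * w s ^ l) =
          ∑ l ∈ range L, u (n + l) * ∑ s, w s ^ l * (g s).1 (T^[n] x) k := by
        simp_rw [Finset.mul_sum]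
        rw [Finset.sum_comm]
        exact Finset.sum_congr rfl fun l _ => Finset.sum_congr rfl fun s _ => by ring
      rw [e2, ← Finset.sum_add_distrib]
      exact Finset.sum_congr rfl fun l _ => by rw [hC l]; ring
    rw [e1]
    refine (norm_add_le _ _).trans (add_le_add ((norm_sum_le _ _).trans (Finset.sum_le_sum fun l _ => ?_))
      ((norm_sum_le _ _).trans (Finset.sum_le_sum fun s _ => ?_)))
    · rw [norm_mul, ← hH.comm_iter]
      exact (mul_le_of_le_one_left (norm_nonneg _) (hu _)).trans (hept l _ k)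
    · rw [norm_mul]
      exact mul_le_mul_of_nonneg_right (hgM s _ k) (norm_nonneg _)
  have hsum := Finset.sum_le_sum hn
  rw [Finset.sum_add_distrib] at hsum
  have h6 : ∑ n ∈ Icc 1 N, ∑ s, M * ‖∑ l ∈ range L, u (n + l) * w s ^ l‖ =
      ∑ s, M * ∑ n ∈ Icc 1 N, ‖∑ l ∈ range L, u (n + l) * w s ^ l‖ := by
    rw [Finset.sum_comm]
    exact Finset.sum_congr rfl fun s _ => (Finset.mul_sum _ _ _).symm
  rw [h6] at hsum
  have h7 : ∑ s, M * ∑ n ∈ Icc 1 N, ‖∑ l ∈ range L, u (n + l) * w s ^ l‖ ≤ K * (ε1 * L * N) := by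
    have h8 : ∀ s ∈ Finset.univ, M * ∑ n ∈ Icc 1 N, ‖∑ l ∈ range L, u (n + l) * w s ^ l‖ ≤ ε1 * L * N := by
      intro s _
      refine (mul_le_mul_of_nonneg_left (hN0 s N (hNs s)) hM0.le).trans (le_of_eq ?_)
      field_simp
    refine (Finset.sum_le_sum h8).trans (le_of_eq ?_)
    rw [Finset.sum_const, Finset.card_univ, Fintype.card_fin, nsmul_eq_mul]
  have hN' : (0 : ℝ) ≤ N := Nat.cast_nonneg _
  have hLpos : (0 : ℝ) < L := by linarith
  have h8 : (∫ t, Q t ∂ν + ε1) * N ≤ (L * δ + ε1 * L) * N := by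
    apply mul_le_mul_of_nonneg_right _ hN'
    nlinarith [hQi]
  have h9 : (K + 1) * ε1 = ε / 4 := by
    rw [hε1]
    field_simp
  have h10 : L * ‖∑ n ∈ Icc 1 N, u n * C.1 (T^[n] x) k‖ ≤
      L * ((δ + (K + 1) * ε1) * N + 2 * R * L) := by
    refine hblk.trans ?_
    have h11 : ∑ n ∈ Icc 1 N, ‖∑ l ∈ range L, u (n + l) * C.1 (T^[n + l] x) k‖ ≤ (L * δ + ε1 * L) * N + K * (ε1 * L * N) := by
      refine hsum.trans (add_le_add (hQN.trans h8) h7)
    have h12 : (L : ℝ) * ((δ + (K + 1) * ε1) * N + 2 * R * L) = (L * δ + ε1 * L) * N + K * (ε1 * L * N) + L * (2 * R * L) := by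
      ring
    rw [h12]
    exact add_le_add h11 le_rfl
  have h11 := le_of_mul_le_mul_left h10 hLpos
  refine h11.trans ?_
  rw [h9]
  have hNN : 4 * R * L / ε ≤ N := hN2.trans (by exact_mod_cast (show N2 ≤ N by omega))
  rw [div_le_iff₀ hε] at hNN
  have h13 : (0 : ℝ) ≤ ε * N := by positivity
  nlinarith

variable {ι : Type} [Fintype ι] {MM : ι → ℕ → Set (Measure (Y × Y))} {linf : ι → Measure (Y × Y)} {C0 : ℝ}

/-- the part almost without rational spectrum -/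
theorem hm_obs (hB : BaseQ S ν MM linf C0) {u : ℕ → ℂ} (hu : BMult u) (hH : HMod S T π E)
    (B : E) (a' : ℕ → ℂ) (K ε : ℝ) (hP : PosDef a') (h0 : (a' 0).im = 0)
    (hK : ∀ n, ‖a' n‖ ≤ K) (hR : NoRat a') (δ : ℝ) (hδ : 0 < δ) (hε : ε ≤ δ ^ 2 / 1024)
    (hd : ∀ n : ℕ, ‖(hH.core ν).inner B (hH.sh^[n] B) - a' n‖ ≤ ε) :
    ∃ N0 : ℕ, ∀ N ≥ N0, ∀ (x : X) (k : κ), ‖∑ n ∈ Icc 1 N, u n * B.1 (T^[n] x) k‖ ≤ δ * N := by
  obtain ⟨R, hR0, hRb⟩ := hH.bdd B
  have hRc : (R : ℂ) ≠ 0 := by exact_mod_cast hR0.ne'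
  set F : ℕ → C(Y, ℂ) := fun n => ((R : ℂ)⁻¹) ^ 2 • hH.gF (hH.sh^[n] B) B with hF
  have hseq : ∀ x : X, GrSeq S F (π x) fun n k => (R : ℂ)⁻¹ * B.1 (T^[n] x) k := by
    intro x l l' hl
    simp only [hF]
    rw [ContinuousMap.smul_apply, ← hH.comm_iter, ← hH.gF_spec, smul_eq_mul, Finset.mul_sum]
    refine Finset.sum_congr rfl fun k _ => ?_
    rw [hH.sh_iter, ← Function.iterate_add_apply, Nat.sub_add_cancel hl, map_mul, map_inv₀, Complex.conj_ofReal]
    ring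
  have hG : Gr κ S F := by
    refine ⟨fun y => ?_, fun y => ?_⟩
    · obtain ⟨x, rfl⟩ := hH.surj y
      exact ⟨_, hseq x⟩
    · obtain ⟨x, rfl⟩ := hH.surj y
      simp only [hF]
      rw [ContinuousMap.smul_apply, Function.iterate_zero, id, hH.gF_self, smul_eq_mul, norm_mul, norm_pow, norm_inv,
        Complex.norm_real, Complex.norm_real, Real.norm_of_nonneg hR0.le,
        Real.norm_of_nonneg (Finset.sum_nonneg fun k _ => by positivity)]
      have h1 := hRb x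
      rw [inv_pow, inv_mul_le_iff₀ (by positivity), mul_one]
      exact h1
  set I : ℕ → ℂ := fun n => (hH.core ν).inner B (hH.sh^[n] B) with hI
  have haa : ∀ n, aG ν F n = ((R : ℂ)⁻¹) ^ 2 * I n := by
    intro n
    unfold aG
    simp only [hI, hF, HMod.core_inner]
    rw [← integral_const_mul]
    rfl
  have hV : VN a' (a' 0).re := vn_of_posDef a' hP h0
  obtain ⟨N0, hN0⟩ := obs_gr hB hG hu (δ / R) (by positivity) (by
    intro r hr
    obtain ⟨j0, hj0⟩ := prime_avg a' (max K (a' 0).re) (fun n => (hK n).trans (le_max_left _ _))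
      (fun c N r' Bd hBd => (hV c N r' Bd hBd).trans (mul_le_mul_of_nonneg_right (le_max_right _ _)
        ((norm_nonneg _).trans (hBd 0)))) hR r hr (δ ^ 2 / 1024) (by positivity)
    refine ⟨j0, fun j hj => ?_⟩
    have h1 : ‖∑ p ∈ Qb j, I (p * r)‖ ≤ δ ^ 2 / 512 * (Qb j).card := by
      have h2 : ∑ p ∈ Qb j, I (p * r) = ∑ p ∈ Qb j, (I (p * r) - a' (p * r)) + ∑ p ∈ Qb j, a' (p * r) := by
        rw [← Finset.sum_add_distrib]
        exact Finset.sum_congr rfl fun p _ => by ring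
      rw [h2]
      refine (norm_add_le _ _).trans ?_
      have h3 : ‖∑ p ∈ Qb j, (I (p * r) - a' (p * r))‖ ≤ (Qb j).card * (δ ^ 2 / 1024) := by
        refine (norm_sum_le _ _).trans ((Finset.sum_le_sum fun p _ => (hd (p * r)).trans hε).trans (le_of_eq ?_))
        rw [Finset.sum_const, nsmul_eq_mul]
      linarith [hj0 j hj]
    simp_rw [haa]
    rw [← Finset.mul_sum, norm_mul, norm_pow, norm_inv, Complex.norm_real, Real.norm_of_nonneg hR0.le]
    calc R⁻¹ ^ 2 * ‖∑ p ∈ Qb j, I (p * r)‖ ≤ R⁻¹ ^ 2 * (δ ^ 2 / 512 * (Qb j).card) :=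
          mul_le_mul_of_nonneg_left h1 (by positivity)
      _ = (δ / R) ^ 2 / 512 * (Qb j).card := by field_simp)
  refine ⟨N0, fun N hN x k => ?_⟩
  have h1 := hN0 N hN (π x) _ (hseq x) k
  have h2 : ∑ n ∈ Icc 1 N, u n * ((R : ℂ)⁻¹ * B.1 (T^[n] x) k) = (R : ℂ)⁻¹ * ∑ n ∈ Icc 1 N, u n * B.1 (T^[n] x) k := by
    rw [Finset.mul_sum]
    exact Finset.sum_congr rfl fun n _ => by ring
  rw [h2, norm_mul, norm_inv, Complex.norm_real, Real.norm_of_nonneg hR0.le, inv_mul_le_iff₀ hR0] at h1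
  refine h1.trans (le_of_eq ?_)
  field_simp


theorem hm_split (hH : HMod S T π E) (hS : MeasurePreserving S ν ν) (v : E) :
    ∃ K : ℝ, 0 ≤ K ∧ ∀ ε : ℝ, 0 < ε → ε ≤ 1 → ∃ (m : ℕ) (w : Fin m → ℂ) (g : Fin m → E) (C : E),
      (∀ s, ∃ q : ℕ, 0 < q ∧ w s ^ q = 1) ∧
      (∀ l : ℕ, ((hH.core ν).inner (hH.sh^[l] C - ∑ s, w s ^ l • g s) (hH.sh^[l] C - ∑ s, w s ^ l • g s)).re ≤ ε ^ 2) ∧
      ∃ a' : ℕ → ℂ, PosDef a' ∧ (a' 0).im = 0 ∧ (∀ n, ‖a' n‖ ≤ (2 * K + 2) ^ 2) ∧ NoRat a' ∧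
        ∀ n : ℕ, ‖(hH.core ν).inner (v - C) (hH.sh^[n] (v - C)) - a' n‖ ≤ 4 * (2 * K + 2) * ε := by
  exact gh_split (hH.core ν) hH.sh (hH.core_sh hS) v


theorem hm1 (hB : BaseQ S ν MM linf C0) (hE : UE S ν) {u : ℕ → ℂ} (hu : BMult u)
    (hw : ∀ (w : ℂ) (q : ℕ), 0 < q → w ^ q = 1 → ShortOrth u w) (hH : HMod S T π E) (v : E) (ε : ℝ) (hε : 0 < ε) :
    ∃ C : E, (∃ N0 : ℕ, ∀ N ≥ N0, ∀ (x : X) (k : κ), ‖∑ n ∈ Icc 1 N, u n * C.1 (T^[n] x) k‖ ≤ ε * N) ∧
      ∃ N0 : ℕ, ∀ N ≥ N0, ∀ (x : X) (k : κ), ‖∑ n ∈ Icc 1 N, u n * (v - C).1 (T^[n] x) k‖ ≤ ε * N := by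
  obtain ⟨K, hK0, hsp⟩ := hm_split hH hB.mp v
  obtain ⟨ε1, hε1⟩ : ∃ ε1 : ℝ, ε1 = min 1 (min (ε ^ 2 / (1024 * (4 * (2 * K + 2)))) (ε / 4)) := ⟨_, rfl⟩
  have hε1p : 0 < ε1 := by rw [hε1]; exact lt_min one_pos (lt_min (by positivity) (by positivity))
  have hε11 : ε1 ≤ 1 := by rw [hε1]; exact min_le_left _ _
  have hε12 : 4 * (2 * K + 2) * ε1 ≤ ε ^ 2 / 1024 := by
    have h1 : ε1 ≤ ε ^ 2 / (1024 * (4 * (2 * K + 2))) := by
      rw [hε1]; exact (min_le_right _ _).trans (min_le_left _ _)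
    calc 4 * (2 * K + 2) * ε1 ≤ 4 * (2 * K + 2) * (ε ^ 2 / (1024 * (4 * (2 * K + 2)))) :=
          mul_le_mul_of_nonneg_left h1 (by positivity)
      _ = ε ^ 2 / 1024 := by field_simp
  have hε13 : ε1 ≤ ε / 4 := by rw [hε1]; exact (min_le_right _ _).trans (min_le_right _ _)
  obtain ⟨m, w, g, C, hq, hC, a', ha1, ha2, ha3, ha4, ha5⟩ := hsp ε1 hε1p hε11
  have hwn : ∀ s, ‖w s‖ = 1 := by
    intro s
    obtain ⟨q, hq0, hq1⟩ := hq s
    have := congrArg norm hq1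
    rw [norm_pow, norm_one] at this
    exact (pow_eq_one_iff_of_nonneg (norm_nonneg _) hq0.ne').1 this
  have hwS : ∀ s, ShortOrth u (w s) := fun s => by
    obtain ⟨q, hq0, hq1⟩ := hq s
    exact hw (w s) q hq0 hq1
  refine ⟨C, ?_, hm_obs hB hu hH (v - C) a' _ _ ha1 ha2 ha3 ha4 ε hε hε12 ha5⟩
  obtain ⟨N1, hN1⟩ := hm_part hE hu.le_one hH w hwn hwS C g ε1 hε1p.le hC (ε / 4) (by positivity)
  refine ⟨N1, fun N hN x k => (hN1 N hN x k).trans ?_⟩
  exact mul_le_mul_of_nonneg_right (by linarith) (Nat.cast_nonneg _)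

/-- every module of vector functions with continuous Gram functions over a uniquely ergodic base with property (P) -/
theorem hm (hB : BaseQ S ν MM linf C0) (hE : UE S ν) {u : ℕ → ℂ} (hu : BMult u)
    (hw : ∀ (w : ℂ) (q : ℕ), 0 < q → w ^ q = 1 → ShortOrth u w) (hH : HMod S T π E) :
    ∀ v ∈ E, ∀ ε : ℝ, 0 < ε → ∃ N0 : ℕ, ∀ N ≥ N0, ∀ (x : X) (k : κ), ‖∑ n ∈ Icc 1 N, u n * v (T^[n] x) k‖ ≤ ε * N := by
  intro v hv ε hε
  obtain ⟨C, ⟨N1, hN1⟩, ⟨N2, hN2⟩⟩ := hm1 hB hE hu hw hH ⟨v, hv⟩ (ε / 2) (half_pos hε)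
  refine ⟨max N1 N2, fun N hN x k => ?_⟩
  have h1 := hN1 N ((le_max_left _ _).trans hN) x k
  have h2 := hN2 N ((le_max_right _ _).trans hN) x k
  have h3 : ∑ n ∈ Icc 1 N, u n * v (T^[n] x) k =
      ∑ n ∈ Icc 1 N, u n * C.1 (T^[n] x) k + ∑ n ∈ Icc 1 N, u n * ((⟨v, hv⟩ - C : E).1 (T^[n] x) k) := by
    rw [← Finset.sum_add_distrib]
    refine Finset.sum_congr rfl fun n _ => ?_
    rw [Submodule.coe_sub, Pi.sub_apply, Pi.sub_apply]
    ring
  rw [h3]
  refine (norm_add_le _ _).trans ?_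
  linarith

end Pool.Agent.Lib.MP_9fe581_an.HG
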