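import Pool.Agent.Lib.MP_9fe581_an.HG.Energy
import Pool.Agent.Lib.MP_9fe581_an.HX.Delta
import Pool.Agent.Lib.MP_9fe581_an.HX.DefsQ
import Pool.Agent.Lib.MP_9fe581_an.HX.Kbsz

/-!
# HG: the orthogonality theorem for Gram families over a base with property (P)
-/

set_option autoImplicit false
set_option linter.unusedSectionVars false

open Finset MeasureTheory Filter Topology
open scoped ComplexConjugate

namespace Pool.Agent.Lib.MP_9fe581_an.HG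

open Pool.Agent.Lib.MP_9fe581_an.HD Pool.Agent.Lib.MP_9fe581_an.HX

variable {Y : Type} [TopologicalSpace Y] {κ : Type} [Fintype κ] {S : Y → Y} {F : ℕ → C(Y, ℂ)}
  [CompactSpace Y] [T2Space Y] [SecondCountableTopology Y] [MeasurableSpace Y] [BorelSpace Y]
  {ν : Measure Y} {D : Type} [Fintype D] {lam : D → ℕ → Measure (Y × Y)}

theorem gdlt_vn (hS : Continuous S) (hF : Gr κ S F) (l : Measure (Y × Y)) [IsProbabilityMeasure l]
    (hl : MeasurePreserving (Prod.map S S) l l) :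
    VN (fun n => (((bG l F n).re : ℝ) : ℂ)) 1 := by
  refine dlt_vn_re ?_
  intro c N r B hB
  have hB0 : 0 ≤ B := (norm_nonneg _).trans (hB 0)
  refine (vn_of_posDef _ (bG_posDef hS hF l hl) (bG_zero_im hF l) c N r B hB).trans ?_
  refine mul_le_mul_of_nonneg_right ?_ hB0
  exact (Complex.re_le_norm _).trans (bG_le hF l 0)

/-- one joining -/
theorem gdlt_one {l : ℕ → Measure (Y × Y)} (hS : Continuous S) (hlp : ∀ q, IsProbabilityMeasure (l q))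
    (hli : ∀ q, MeasurePreserving (Prod.map S S) (l q) (l q))
    (hpos : ∀ q, ∀ f : C(Y, ℂ), jq (l 0) f ≤ jq (l q) f)
    (hlim : ∀ f : C(Y, ℂ), Tendsto (fun q => jq (l q) f) atTop (𝓝 (jq (l 0) f)))
    (hF : Gr κ S F) (r : ℕ) (hr : 1 ≤ r) (ε : ℝ) (hε : 0 < ε) :
    ∃ j0 : ℕ, ∀ j ≥ j0, ∑ p ∈ Qb j, ∑ q ∈ Qb j,
      ((bG (l q) F (p * r)).re - (bG (l 0) F (p * r)).re) ≤ ε * ((Qb j).card : ℝ) ^ 2 := by
  set b : ℕ → ℕ → ℝ := fun q n => (bG (l q) F n).re with hb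
  have hge : ∀ q n, b 0 n ≤ b q n := fun q n => hpos q (F n)
  have hlimq : ∀ n, Tendsto (fun q => b q n) atTop (𝓝 (b 0 n)) := fun n => hlim (F n)
  have hmono : ∀ q k, avg2 (b q) (2 ^ (k + 1)) ≤ avg2 (b q) (2 ^ k) := by
    intro q k
    rw [pow_succ]
    exact bG_avg_mono hS hF (l q) (hli q) (2 ^ k) 2 (by positivity) (by norm_num)
  have hD : ∀ j n, b 0 n ≤ dlt_E b (Qb j) n := by
    intro j n
    have h1 := dlt_E_le (fun _ _ => b 0 n) b (Qb j) n n le_rfl (fun q _ => hge q n)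
    rwa [dlt_E_const] at h1
  have h8 := mono_abs (fun j => dlt_E b (Qb j)) (b 0) hD ?_ ?_ (hmono 0) ?_
  · have h9 := primes_abs model Qb_card (fun j => dlt_E b (Qb j)) (b 0) 1
      (fun j => dlt_vn_E (Qb j) fun q => gdlt_vn hS hF (l q) (hli q))
      (gdlt_vn hS hF (l 0) (hli 0)) hD h8 r hr ε hε
    obtain ⟨j0, hj0⟩ := h9
    refine ⟨j0, fun j hj => ?_⟩
    have h10 := hj0 j hj
    rcases Nat.eq_zero_or_pos (Qb j).card with hc | hc
    · have hemp : Qb j = ∅ := Finset.card_eq_zero.1 hc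
      rw [hemp]
      simp
    · have hc' : (0 : ℝ) < (Qb j).card := by exact_mod_cast hc
      have h11 : ∑ p ∈ Qb j, ∑ q ∈ Qb j, (b q (p * r) - b 0 (p * r)) =
          ((Qb j).card : ℝ) * ∑ p ∈ Qb j, (dlt_E b (Qb j) (p * r) - b 0 (p * r)) := by
        rw [Finset.mul_sum]
        refine Finset.sum_congr rfl fun p _ => ?_
        unfold dlt_E
        rw [if_neg (by omega), Finset.sum_sub_distrib, Finset.sum_const, nsmul_eq_mul]
        field_simp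
      calc ∑ p ∈ Qb j, ∑ q ∈ Qb j, ((bG (l q) F (p * r)).re - (bG (l 0) F (p * r)).re) =
          ((Qb j).card : ℝ) * ∑ p ∈ Qb j, (dlt_E b (Qb j) (p * r) - b 0 (p * r)) := h11
        _ ≤ ((Qb j).card : ℝ) * (ε * ((Qb j).card : ℝ)) := mul_le_mul_of_nonneg_left h10 hc'.le
        _ = _ := by ring
  · -- the limit
    intro n
    rw [Metric.tendsto_atTop]
    intro δ hδ
    obtain ⟨q0, hq0⟩ := Metric.tendsto_atTop.1 (hlimq n) (δ / 2) (by positivity)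
    refine ⟨q0, fun j hj => ?_⟩
    have h1 : ∀ q ∈ Qb j, b q n ≤ b 0 n + δ / 2 := by
      intro q hq
      have h2 : q0 ≤ q := by
        unfold Qb at hq
        rw [Finset.mem_filter, Finset.mem_Ico] at hq
        have : j < 2 ^ j := Nat.lt_two_pow_self
        omega
      have h3 := hq0 q h2
      rw [Real.dist_eq] at h3
      have h4 := (abs_lt.1 h3).2
      linarith
    have h2 := dlt_E_le b (fun _ _ => b 0 n + δ / 2) (Qb j) n n (by linarith) h1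
    rw [dlt_E_const] at h2
    have h3 := hD j n
    rw [Real.dist_eq, abs_lt]
    constructor <;> linarith
  · intro j k
    rw [dlt_avg2_E, dlt_avg2_E]
    exact dlt_E_le _ _ _ _ _ (hmono 0 k) (fun q _ => hmono q k)
  · intro k
    exact bG_avg_nonneg hS hF (l 0) (hli 0) (2 ^ k)

theorem gdelta_primes0 (hS : Continuous S) (hlp : ∀ i q, IsProbabilityMeasure (lam i q))
    (hli : ∀ i q, MeasurePreserving (Prod.map S S) (lam i q) (lam i q))
    (hpos : ∀ i q, ∀ f : C(Y, ℂ), jq (lam i 0) f ≤ jq (lam i q) f)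
    (hlim : ∀ i, ∀ f : C(Y, ℂ), Tendsto (fun q => jq (lam i q) f) atTop (𝓝 (jq (lam i 0) f)))
    (hF : Gr κ S F) (r : ℕ) (hr : 1 ≤ r) (ε : ℝ) (hε : 0 < ε) :
    ∃ j0 : ℕ, ∀ j ≥ j0, ∑ p ∈ Qb j, ∑ i, ∑ q ∈ Qb j,
      ((bG (lam i q) F (p * r)).re - (bG (lam i 0) F (p * r)).re) ≤ ε * ((Qb j).card : ℝ) ^ 2 := by
  set K : ℝ := (Fintype.card D : ℝ) + 1 with hK
  have hK0 : 0 < K := by positivity
  choose j0 hj0 using fun i : D => gdlt_one (l := lam i) hS (hlp i) (hli i) (hpos i) (hlim i) hF r hr (ε / K)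
    (by positivity)
  refine ⟨∑ i, j0 i, fun j hj => ?_⟩
  rw [Finset.sum_comm]
  have h1 : ∀ i ∈ (Finset.univ : Finset D), ∑ p ∈ Qb j, ∑ q ∈ Qb j,
      ((bG (lam i q) F (p * r)).re - (bG (lam i 0) F (p * r)).re) ≤ ε / K * ((Qb j).card : ℝ) ^ 2 := by
    intro i _
    refine hj0 i j (le_trans ?_ hj)
    exact Finset.single_le_sum (fun _ _ => Nat.zero_le _) (Finset.mem_univ i)
  refine (Finset.sum_le_sum h1).trans ?_
  rw [Finset.sum_const, nsmul_eq_mul, Finset.card_univ]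
  have h2 : (Fintype.card D : ℝ) * (ε / K * ((Qb j).card : ℝ) ^ 2) =
      ((Fintype.card D : ℝ) / K) * (ε * ((Qb j).card : ℝ) ^ 2) := by ring
  rw [h2]
  refine mul_le_of_le_one_left (by positivity) ?_
  rw [div_le_one hK0]
  linarith

variable {MM : D → ℕ → Set (Measure (Y × Y))} {linf : D → Measure (Y × Y)} {C0 : ℝ}

open Classical in
theorem gdelta_unif (hB : BaseQ S ν MM linf C0) (hF : Gr κ S F) (r : ℕ) (hr : 1 ≤ r) (ε : ℝ) (hε : 0 < ε) :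
    ∃ j0 : ℕ, ∀ j ≥ j0, ∀ m : D → ℕ → Measure (Y × Y), (∀ i, ∀ q ∈ Qb j, m i q ∈ MM i q) →
      ∑ p ∈ Qb j, ∑ i, ∑ q ∈ Qb j, ((bG (m i q) F (p * r)).re - (bG (linf i) F (p * r)).re) ≤
        ε * ((Qb j).card : ℝ) ^ 2 := by
  -- the bad blocks, with a choice of bad joinings
  set bad : ℕ → (D → ℕ → Measure (Y × Y)) → Prop := fun j m => (∀ i, ∀ q ∈ Qb j, m i q ∈ MM i q) ∧
    ε * ((Qb j).card : ℝ) ^ 2 < ∑ p ∈ Qb j, ∑ i, ∑ q ∈ Qb j,
      ((bG (m i q) F (p * r)).re - (bG (linf i) F (p * r)).re) with hbad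
  have hch : ∀ j, ∃ m : D → ℕ → Measure (Y × Y), (∃ m', bad j m') → bad j m := by
    intro j
    by_cases h : ∃ m', bad j m'
    · obtain ⟨m', hm'⟩ := h
      exact ⟨m', fun _ => hm'⟩
    · exact ⟨fun i _ => linf i, fun h' => absurd h' h⟩
  choose sel hsel using hch
  set lam : D → ℕ → Measure (Y × Y) := fun i q =>
    if q ∈ Qb (Nat.log 2 q) ∧ ∃ m', bad (Nat.log 2 q) m' then sel (Nat.log 2 q) i q else linf i with hlam
  have hlam1 : ∀ i q, lam i q ∈ MM i q ∨ lam i q = linf i := by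
    intro i q
    by_cases h : q ∈ Qb (Nat.log 2 q) ∧ ∃ m', bad (Nat.log 2 q) m'
    · left
      have e : lam i q = sel (Nat.log 2 q) i q := by
        simp only [hlam]
        rw [if_pos h]
      rw [e]
      exact (hsel _ h.2).1 i q h.1
    · right
      simp only [hlam]
      rw [if_neg h]
  have hlam0 : ∀ i, lam i 0 = linf i := by
    intro i
    have h : ¬ (0 ∈ Qb (Nat.log 2 0) ∧ ∃ m', bad (Nat.log 2 0) m') := by
      rintro ⟨h1, _⟩
      exact Nat.not_prime_zero (mem_filter.1 h1).2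
    simp only [hlam]
    rw [if_neg h]
  have h := gdelta_primes0 (S := S) (F := F) (κ := κ) (lam := lam) hB.cont
    (fun i q => by
      rcases hlam1 i q with h | h
      · exact hB.lprob i q _ h
      · rw [h]; exact hB.iprob i)
    (fun i q => by
      rcases hlam1 i q with h | h
      · exact hB.linv i q _ h
      · rw [h]; exact hB.iinv i)
    (fun i q f => by
      rw [hlam0]
      rcases hlam1 i q with h | h
      · exact hB.pos i q _ h f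
      · rw [h])
    (fun i f => by
      rw [hlam0, Metric.tendsto_atTop]
      intro δ hδ
      obtain ⟨q0, hq0⟩ := hB.lim i f (δ / 2) (half_pos hδ)
      refine ⟨q0, fun q hq => ?_⟩
      rw [Real.dist_eq]
      rcases hlam1 i q with h | h
      · have h1 := hB.pos i q _ h f
        have h2 := hq0 q hq _ h
        rw [abs_of_nonneg (by linarith)]
        linarith
      · rw [h, sub_self, abs_zero]
        exact hδ)
    hF r hr ε hε
  obtain ⟨j0, hj0⟩ := h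
  refine ⟨j0, fun j hj m hm => ?_⟩
  by_contra hcon
  have hb : ∃ m', bad j m' := ⟨m, hm, not_le.1 hcon⟩
  have h1 := (hsel j hb).2
  have h2 := hj0 j hj
  have hlog : ∀ q ∈ Qb j, Nat.log 2 q = j := by
    intro q hq
    have h3 := mem_Ico.1 (mem_filter.1 hq).1
    exact Nat.log_eq_of_pow_le_of_lt_pow h3.1 h3.2
  have h3 : ∑ p ∈ Qb j, ∑ i, ∑ q ∈ Qb j, ((bG (lam i q) F (p * r)).re - (bG (lam i 0) F (p * r)).re) =
      ∑ p ∈ Qb j, ∑ i, ∑ q ∈ Qb j, ((bG (sel j i q) F (p * r)).re - (bG (linf i) F (p * r)).re) := by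
    refine Finset.sum_congr rfl fun p _ => Finset.sum_congr rfl fun i _ => Finset.sum_congr rfl fun q hq => ?_
    rw [hlam0]
    have e : lam i q = sel j i q := by
      simp only [hlam]
      rw [hlog q hq, if_pos ⟨hq, hb⟩]
    rw [e]
  rw [h3] at h2
  exact absurd h2 (not_le.2 h1)

/-- `∑_m √f ≤ √(M ∑_m f)` -/
theorem gmn_sqrt {α : Type*} (s : Finset α) (f : α → ℝ) (hf : ∀ m, 0 ≤ f m) :
    ∑ m ∈ s, Real.sqrt (f m) ≤ Real.sqrt (s.card * ∑ m ∈ s, f m) := by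
  apply Real.le_sqrt_of_sq_le
  refine (sq_sum_le_card_mul_sum_sq).trans (le_of_eq ?_)
  congr 1
  exact Finset.sum_congr rfl fun m _ => Real.sq_sqrt (hf m)

/-- the energy over one block, uniform in the point and in the window -/
theorem genergy_win (hB : BaseQ S ν MM linf C0) (hF : Gr κ S F) (r : ℕ) (hr : 1 ≤ r) (η : ℝ) (hη : 0 < η)
    (hR : ∃ j0 : ℕ, ∀ j ≥ j0, ‖∑ p ∈ Qb j, aG ν F (p * r)‖ ≤ η / 8 * ((Qb j).card : ℝ)) :
    ∃ j0 : ℕ, ∀ j ≥ j0, ∃ M0 : ℕ, ∀ M ≥ M0, ∀ (M1 : ℕ) (y : Y),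
      ∑ m ∈ Ioc M1 (M1 + M), ‖∑ p ∈ Qb j, F (p * r) (S^[p * m] y)‖ ^ 2 ≤
        η ^ 2 / 16 * ((Qb j).card : ℝ) ^ 2 * M := by
  set C : ℝ := 1 with hC
  have hCn : 0 ≤ C := by positivity
  have hC0n := hB.C0_nonneg
  set δ : ℝ := min (η ^ 2 / 128) ((η ^ 2 / 64 / (C0 * C + 1)) ^ 2) with hδ
  have hδ0 : 0 < δ := lt_min (by positivity) (by positivity)
  have hδ1 : δ ≤ η ^ 2 / 128 := min_le_left _ _
  have hδ2 : Real.sqrt δ ≤ η ^ 2 / 64 / (C0 * C + 1) := by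
    rw [← Real.sqrt_sq (show 0 ≤ η ^ 2 / 64 / (C0 * C + 1) by positivity)]
    exact Real.sqrt_le_sqrt (min_le_right _ _)
  obtain ⟨j1, h1⟩ := hR
  obtain ⟨j2, h2⟩ := gdelta_unif hB hF r hr δ hδ0
  obtain ⟨j3, h3⟩ := main_card_large (128 * C ^ 2 / η ^ 2 + 1)
  refine ⟨max j1 (max j2 j3), fun j hj => ?_⟩
  have k1 := h1 j ((le_max_left _ _).trans hj)
  have k2 := h2 j ((le_max_left _ _).trans ((le_max_right _ _).trans hj))
  have k3 := h3 j ((le_max_right _ _).trans ((le_max_right _ _).trans hj))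
  set K : ℝ := ((Qb j).card : ℝ) with hK
  have hC0 : 0 ≤ 128 * C ^ 2 / η ^ 2 := by positivity
  have hK1 : 1 ≤ K := by linarith
  let f : ℕ → C(Y, ℂ) := fun p => F (p * r)
  obtain ⟨M0, hM0⟩ := hB.P (Qb j) (fun p hp => (mem_filter.1 hp).2) f C (fun p _ y => F_le hF (p * r) y)
    (η ^ 2 / 128) (by positivity)
  refine ⟨M0, fun M hM M1 y => ?_⟩
  obtain ⟨m, hm, hm2⟩ := hM0 M hM M1 y
  refine hm2.trans ?_
  refine mul_le_mul_of_nonneg_right ?_ (Nat.cast_nonneg _)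
  set W : ℝ := ∑ p ∈ Qb j, ∑ i, ∑ q ∈ Qb j, (jq (m i q) (f p) - jq (linf i) (f p)) with hW
  have hW0 : 0 ≤ W := by
    refine Finset.sum_nonneg fun p _ => Finset.sum_nonneg fun i _ => Finset.sum_nonneg fun q hq => ?_
    have := hB.pos i q (m i q) (hm i q hq) (f p)
    linarith
  have hW1 : W ≤ δ * K ^ 2 := k2 m hm
  have e1 : ‖∑ p ∈ Qb j, ∫ y, f p y ∂ν‖ ^ 2 ≤ η ^ 2 / 64 * K ^ 2 := by
    calc ‖∑ p ∈ Qb j, ∫ y, f p y ∂ν‖ ^ 2 ≤ (η / 8 * K) ^ 2 := pow_le_pow_left₀ (norm_nonneg _) k1 2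
      _ = η ^ 2 / 64 * K ^ 2 := by ring
  have e2 : K * C ^ 2 ≤ η ^ 2 / 128 * K ^ 2 := by
    have h4 : 128 * C ^ 2 / η ^ 2 ≤ K := by linarith
    rw [div_le_iff₀ (by positivity)] at h4
    nlinarith
  have e3 : W ≤ η ^ 2 / 128 * K ^ 2 := hW1.trans (mul_le_mul_of_nonneg_right hδ1 (by positivity))
  have e5 : C0 * K * C * Real.sqrt W ≤ η ^ 2 / 64 * K ^ 2 := by
    have h5 : Real.sqrt W ≤ η ^ 2 / 64 / (C0 * C + 1) * K := by
      calc Real.sqrt W ≤ Real.sqrt (δ * K ^ 2) := Real.sqrt_le_sqrt hW1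
        _ = Real.sqrt δ * K := by rw [Real.sqrt_mul hδ0.le, Real.sqrt_sq (by linarith)]
        _ ≤ _ := mul_le_mul_of_nonneg_right hδ2 (by linarith)
    have h6 : 0 ≤ C0 * K * C := by positivity
    calc C0 * K * C * Real.sqrt W ≤ C0 * K * C * (η ^ 2 / 64 / (C0 * C + 1) * K) :=
          mul_le_mul_of_nonneg_left h5 h6
      _ = (C0 * C / (C0 * C + 1)) * (η ^ 2 / 64 * K ^ 2) := by
          have : C0 * C + 1 ≠ 0 := by positivity
          field_simp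
      _ ≤ 1 * (η ^ 2 / 64 * K ^ 2) := by
          refine mul_le_mul_of_nonneg_right ?_ (by positivity)
          rw [div_le_one (by positivity)]
          linarith
      _ = η ^ 2 / 64 * K ^ 2 := one_mul _
  have e4 : η ^ 2 / 128 ≤ η ^ 2 / 128 * K ^ 2 := by
    have : (1 : ℝ) ≤ K ^ 2 := one_le_pow₀ hK1
    nlinarith [sq_nonneg η]
  have e6 : (0 : ℝ) ≤ η ^ 2 * K ^ 2 := by positivity
  linarith

theorem obs_gr (hB : BaseQ S ν MM linf C0) (hF : Gr κ S F) {u : ℕ → ℂ} (hu : BMult u) (ε : ℝ) (hε : 0 < ε)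
    (hR : ∀ r : ℕ, 1 ≤ r → ∃ j0 : ℕ, ∀ j ≥ j0, ‖∑ p ∈ Qb j, aG ν F (p * r)‖ ≤ ε ^ 2 / 512 * ((Qb j).card : ℝ)) :
    ∃ N0 : ℕ, ∀ N ≥ N0, ∀ (y : Y) (d : ℕ → κ → ℂ), GrSeq S F y d → ∀ t, ‖∑ n ∈ Icc 1 N, u n * d n t‖ ≤ ε * N := by
  have key : ∃ N0 : ℕ, ∀ N ≥ N0, ∀ z : {z : Y × (ℕ → κ → ℂ) × κ // GrSeq S F z.1 z.2.1},
      ‖∑ n ∈ Icc 1 N, u n * (fun (z : {z : Y × (ℕ → κ → ℂ) × κ // GrSeq S F z.1 z.2.1}) (n : ℕ) =>
        z.1.2.1 n z.1.2.2) z n‖ ≤ ε * N := by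
    refine kbsz_win hu _ (fun z n => z.2.entry_le hF n _) ε hε ?_
    set η : ℝ := (ε / 8) ^ 2 with hηdef
    have hη : 0 < η := by positivity
    have hη8 : ε ^ 2 / 512 = η / 8 := by rw [hηdef]; ring
    set C : ℝ := 1 with hC
    obtain ⟨L, hL⟩ := exists_nat_ge (8 * C ^ 2 / η ^ 2 + 1)
    have hL0 : (0 : ℝ) < L := by
      have : 0 ≤ 8 * C ^ 2 / η ^ 2 := by positivity
      linarith
    have hLn : 0 < L := by exact_mod_cast hL0
    have hen : ∀ᶠ j in atTop, ∀ r ∈ Ico 1 L, ∃ M0 : ℕ, ∀ M ≥ M0, ∀ (M1 : ℕ) (y : Y),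
        ∑ m ∈ Ioc M1 (M1 + M), ‖∑ p ∈ Qb j, F (p * r) (S^[p * m] y)‖ ^ 2 ≤
          η ^ 2 / 16 * ((Qb j).card : ℝ) ^ 2 * M := by
      rw [Filter.eventually_all_finset]
      intro r hr
      obtain ⟨j0, h0⟩ := genergy_win hB hF r (mem_Ico.1 hr).1 η hη (by
        rw [← hη8]
        exact hR r (mem_Ico.1 hr).1)
      exact eventually_atTop.2 ⟨j0, h0⟩
    obtain ⟨J0, hJ0⟩ := eventually_atTop.1 hen
    refine ⟨J0, fun j hj => ?_⟩
    have hM : ∀ r : ℕ, ∃ M0 : ℕ, r ∈ Ico 1 L → ∀ M ≥ M0, ∀ (M1 : ℕ) (y : Y),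
        ∑ m ∈ Ioc M1 (M1 + M), ‖∑ p ∈ Qb j, F (p * r) (S^[p * m] y)‖ ^ 2 ≤
          η ^ 2 / 16 * ((Qb j).card : ℝ) ^ 2 * M := by
      intro r
      by_cases h : r ∈ Ico 1 L
      · obtain ⟨M0, h0⟩ := hJ0 j hj r h
        exact ⟨M0, fun _ => h0⟩
      · exact ⟨0, fun h' => absurd h' h⟩
    choose M0 hM0 using hM
    obtain ⟨H1, hH1⟩ := exists_nat_ge (4 * L / η)
    refine ⟨max H1 ((Ico 1 L).sup M0), fun H hH M1 z => ?_⟩
    obtain ⟨⟨y, d, t⟩, hd⟩ := z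
    simp only at hd
    have hHH1 : (4 * L / η : ℝ) ≤ H := hH1.trans (by exact_mod_cast (le_max_left _ _).trans hH)
    have hHM : ∀ r ∈ Ico 1 L, M0 r ≤ H := fun r hr =>
      (Finset.le_sup (f := M0) hr).trans ((le_max_right _ _).trans hH)
    set K : ℝ := ((Qb j).card : ℝ) with hK
    have hK0 : 0 ≤ K := Nat.cast_nonneg _
    have hH0 : (0 : ℝ) ≤ H := Nat.cast_nonneg _
    -- the sum of Phi over the window
    have hP := gr_pairs hF (Qb j) L hLn M1 H y (fun _ => η ^ 2 / 16 * K ^ 2 * H)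
      (fun r hr M' => hM0 r hr H (hHM r hr) M' y)
    have hP2 : ∑ m ∈ Ioc M1 (M1 + H), ∑ p ∈ Qb j, ∑ q ∈ Qb j, Ph S F p q L (S^[p * m] y) (S^[q * m] y) ≤
        (η / 2) ^ 2 * K ^ 2 * H := by
      refine hP.trans ?_
      have h4 : K ^ 2 * H / L ≤ η ^ 2 / 8 * K ^ 2 * H := by
        rw [div_le_iff₀ hL0]
        have h5 : 8 * C ^ 2 / η ^ 2 ≤ L := by linarith
        rw [div_le_iff₀ (by positivity)] at h5
        have h6 : (0 : ℝ) ≤ K ^ 2 * H := by positivity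
        nlinarith
      have h7 : 2 / (L : ℝ) * ∑ r ∈ Ico 1 L, (η ^ 2 / 16 * K ^ 2 * H) ≤ η ^ 2 / 8 * K ^ 2 * H := by
        rw [Finset.sum_const, nsmul_eq_mul, Nat.card_Ico]
        have h8 : ((L - 1 : ℕ) : ℝ) ≤ L := by exact_mod_cast Nat.sub_le _ _
        have h9 : (0 : ℝ) ≤ η ^ 2 / 16 * K ^ 2 * H := by positivity
        calc 2 / (L : ℝ) * (((L - 1 : ℕ) : ℝ) * (η ^ 2 / 16 * K ^ 2 * H))
            ≤ 2 / (L : ℝ) * (L * (η ^ 2 / 16 * K ^ 2 * H)) := by gcongr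
          _ = η ^ 2 / 8 * K ^ 2 * H := by
              field_simp
              ring
      calc _ ≤ η ^ 2 / 8 * K ^ 2 * H + η ^ 2 / 8 * K ^ 2 * H := add_le_add h4 h7
        _ = _ := by ring
    -- the sum over the pairs
    have hcard : ((Ioc M1 (M1 + H)).card : ℝ) = H := by rw [Nat.card_Ioc, Nat.add_sub_cancel_left]
    have h10 : ∑ p ∈ Qb j, ∑ q ∈ Qb j, ∑ m ∈ Ioc M1 (M1 + H), Real.sqrt (Ph S F p q L (S^[p * m] y) (S^[q * m] y)) ≤
        η / 2 * K ^ 2 * H := by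
      have e1 : ∑ p ∈ Qb j, ∑ q ∈ Qb j, ∑ m ∈ Ioc M1 (M1 + H),
          Real.sqrt (Ph S F p q L (S^[p * m] y) (S^[q * m] y)) =
          ∑ x ∈ (Qb j ×ˢ Qb j) ×ˢ Ioc M1 (M1 + H),
            Real.sqrt (Ph S F x.1.1 x.1.2 L (S^[x.1.1 * x.2] y) (S^[x.1.2 * x.2] y)) := by
        rw [Finset.sum_product, Finset.sum_product]
      have e2 : ∑ x ∈ (Qb j ×ˢ Qb j) ×ˢ Ioc M1 (M1 + H),
            Ph S F x.1.1 x.1.2 L (S^[x.1.1 * x.2] y) (S^[x.1.2 * x.2] y) =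
          ∑ m ∈ Ioc M1 (M1 + H), ∑ p ∈ Qb j, ∑ q ∈ Qb j, Ph S F p q L (S^[p * m] y) (S^[q * m] y) := by
        rw [Finset.sum_product, Finset.sum_comm]
        refine Finset.sum_congr rfl fun m _ => ?_
        rw [Finset.sum_product]
      rw [e1]
      refine (gmn_sqrt _ _ fun x => Ph_nonneg hF _ _ _ _ _).trans ?_
      rw [e2, Finset.card_product, Finset.card_product]
      apply Real.sqrt_le_iff.2
      refine ⟨by positivity, ?_⟩
      push_cast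
      rw [hcard, ← hK]
      calc K * K * H * _ ≤ K * K * H * ((η / 2) ^ 2 * K ^ 2 * H) :=
            mul_le_mul_of_nonneg_left hP2 (by positivity)
        _ = (η / 2 * K ^ 2 * H) ^ 2 := by ring
    have h11 : ∑ p ∈ Qb j, ∑ q ∈ Qb j, (2 * (L : ℝ)) ≤ η / 2 * K ^ 2 * H := by
      rw [Finset.sum_const, Finset.sum_const, nsmul_eq_mul, nsmul_eq_mul, ← hK]
      have h12 : 4 * (L : ℝ) ≤ H * η := by
        rwa [div_le_iff₀ hη] at hHH1
      have h13 : (0 : ℝ) ≤ K ^ 2 := by positivity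
      nlinarith
    calc ∑ p ∈ Qb j, ∑ q ∈ Qb j, ‖∑ m ∈ Ioc M1 (M1 + H), d (p * m) t * conj (d (q * m) t)‖
        ≤ ∑ p ∈ Qb j, ∑ q ∈ Qb j, ((∑ m ∈ Ioc M1 (M1 + H),
            Real.sqrt (Ph S F p q L (S^[p * m] y) (S^[q * m] y))) + 2 * L) :=
          Finset.sum_le_sum fun p _ => Finset.sum_le_sum fun q _ => gr_vdc hF hd p q L hLn M1 H t
      _ = (∑ p ∈ Qb j, ∑ q ∈ Qb j, ∑ m ∈ Ioc M1 (M1 + H),
            Real.sqrt (Ph S F p q L (S^[p * m] y) (S^[q * m] y))) + ∑ p ∈ Qb j, ∑ q ∈ Qb j, (2 * (L : ℝ)) := by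
          simp only [Finset.sum_add_distrib]
      _ ≤ η / 2 * K ^ 2 * H + η / 2 * K ^ 2 * H := add_le_add h10 h11
      _ = η * K ^ 2 * H := by ring
  obtain ⟨N0, hN0⟩ := key
  exact ⟨N0, fun N hN y d hd t => hN0 N hN ⟨(y, d, t), hd⟩⟩


end Pool.Agent.Lib.MP_9fe581_an.HG
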